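import Mathlib

/-! # The near part of the logarithmic kernel in the plane -/

set_option autoImplicit false

open MeasureTheory Set Filter Topology Metric
open scoped ENNReal NNReal ContDiff

namespace Pool.Agent.H123R3.P2

/-- the plane -/
abbrev E2 := EuclideanSpace ℝ (Fin 2)

/-- the cutoff -/
noncomputable def chi : ContDiffBump (0 : E2) := ⟨1 / 2, 1, by norm_num, by norm_num⟩

lemma chi_zero (x : E2) (hx : 1 ≤ ‖x‖) : chi x = 0 :=
  chi.zero_of_le_dist (by simpa [chi] using hx)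

lemma chi_one (x : E2) (hx : ‖x‖ ≤ 1 / 2) : chi x = 1 :=
  chi.one_of_mem_closedBall (by simpa [chi] using hx)

/-- the near part of the logarithmic kernel -/
noncomputable def G0 (x : E2) : ℝ := chi x * Real.log ‖x‖

/-- the far part of the logarithmic kernel -/
noncomputable def Gt (x : E2) : ℝ := (1 - chi x) * Real.log ‖x‖

lemma Gt_add_G0 (x : E2) : Gt x + G0 x = Real.log ‖x‖ := by unfold Gt G0; ring

lemma G0_zero (x : E2) (hx : 1 ≤ ‖x‖) : G0 x = 0 := by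
  unfold G0; rw [chi_zero x hx]; ring

lemma Gt_zero (x : E2) (hx : ‖x‖ ≤ 1 / 2) : Gt x = 0 := by
  unfold Gt; rw [chi_one x hx]; ring

lemma Gt_of_le (x : E2) (hx : 1 ≤ ‖x‖) : Gt x = Real.log ‖x‖ := by
  unfold Gt; rw [chi_zero x hx]; ring

/-- the dyadic partition -/
noncomputable def psi (x : E2) : ℝ := chi x - chi ((2 : ℝ) • x)

/-- the partition times the logarithm -/
noncomputable def kap (x : E2) : ℝ := psi x * Real.log ‖x‖

lemma psi_smooth : ContDiff ℝ ∞ psi :=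
  chi.contDiff.sub (chi.contDiff.comp (contDiff_const_smul 2))

lemma psi_zero (x : E2) (hx : 1 ≤ ‖x‖) : psi x = 0 := by
  unfold psi
  rw [chi_zero x hx, chi_zero, sub_zero]
  rw [norm_smul, Real.norm_of_nonneg (by norm_num)]
  linarith

lemma psi_zero' (x : E2) (hx : ‖x‖ ≤ 1 / 4) : psi x = 0 := by
  unfold psi
  rw [chi_one x (by linarith), chi_one, sub_self]
  rw [norm_smul, Real.norm_of_nonneg (by norm_num)]
  linarith

lemma smooth_of_zero {q : E2 → ℝ} (hq : ContDiff ℝ ∞ q) {r : ℝ} (hr : 0 < r)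
    (h0 : ∀ x, ‖x‖ ≤ r → q x = 0) {p : E2 → ℝ} (hp : ∀ x, x ≠ 0 → ContDiffAt ℝ ∞ p x) :
    ContDiff ℝ ∞ fun x => q x * p x := by
  rw [contDiff_iff_contDiffAt]
  intro x
  by_cases hx : ‖x‖ < r
  · have h : (fun x => q x * p x) =ᶠ[𝓝 x] fun _ => (0 : ℝ) := by
      have : {y : E2 | ‖y‖ < r} ∈ 𝓝 x :=
        (isOpen_lt continuous_norm continuous_const).mem_nhds hx
      filter_upwards [this] with y hy
      rw [h0 y (le_of_lt hy), zero_mul]
    exact contDiffAt_const.congr_of_eventuallyEq h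
  · have hx0 : x ≠ 0 := by
      rintro rfl
      apply hx
      simpa using hr
    exact hq.contDiffAt.mul (hp x hx0)

lemma log_smooth (x : E2) (hx : x ≠ 0) : ContDiffAt ℝ ∞ (fun x : E2 => Real.log ‖x‖) x :=
  (contDiffAt_norm ℝ hx).log (norm_ne_zero_iff.2 hx)

lemma kap_smooth : ContDiff ℝ ∞ kap :=
  smooth_of_zero psi_smooth (by norm_num : (0 : ℝ) < 1 / 4) psi_zero' log_smooth

lemma Gt_smooth : ContDiff ℝ ∞ Gt :=
  smooth_of_zero (contDiff_const.sub chi.contDiff) (by norm_num : (0 : ℝ) < 1 / 2)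
    (fun x hx => by rw [chi_one x hx, sub_self]) log_smooth

lemma kap_zero (x : E2) (hx : 1 ≤ ‖x‖) : kap x = 0 := by unfold kap; rw [psi_zero x hx, zero_mul]

/-- the dyadic pieces -/
noncomputable def kj (j : ℕ) (x : E2) : ℝ :=
  kap ((2 : ℝ) ^ j • x) - (j * Real.log 2) * psi ((2 : ℝ) ^ j • x)

lemma kj_zero (j : ℕ) (x : E2) (hx : 1 ≤ ‖(2 : ℝ) ^ j • x‖) : kj j x = 0 := by
  unfold kj
  rw [kap_zero _ hx, psi_zero _ hx]; ring

lemma kj_eq (j : ℕ) (x : E2) (hx : x ≠ 0) : kj j x = psi ((2 : ℝ) ^ j • x) * Real.log ‖x‖ := by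
  unfold kj kap
  have hp : 0 < ‖x‖ := norm_pos_iff.2 hx
  rw [norm_smul, Real.norm_of_nonneg (by positivity), Real.log_mul (by positivity) hp.ne',
    Real.log_pow]
  ring

lemma psi_sum (N : ℕ) (x : E2) :
    ∑ j ∈ Finset.range N, psi ((2 : ℝ) ^ j • x) = chi x - chi ((2 : ℝ) ^ N • x) := by
  induction N with
  | zero => simp
  | succ N ih =>
    rw [Finset.sum_range_succ, ih]
    unfold psi
    rw [smul_smul, pow_succ]
    have : (2 : ℝ) * 2 ^ N = 2 ^ N * 2 := by ring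
    rw [this]
    ring

lemma kj_hasSum (x : E2) (hx : x ≠ 0) : HasSum (fun j => kj j x) (G0 x) := by
  have hp : 0 < ‖x‖ := norm_pos_iff.2 hx
  obtain ⟨N, hN⟩ := pow_unbounded_of_one_lt (‖x‖⁻¹) (show (1 : ℝ) < 2 by norm_num)
  have hbig : ∀ j, N ≤ j → 1 ≤ ‖(2 : ℝ) ^ j • x‖ := by
    intro j hj
    rw [norm_smul, Real.norm_of_nonneg (by positivity)]
    have h1 : (2 : ℝ) ^ N ≤ 2 ^ j := pow_le_pow_right₀ (by norm_num) hj
    have h2 : ‖x‖⁻¹ * ‖x‖ = 1 := inv_mul_cancel₀ hp.ne'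
    nlinarith
  have h0 : ∀ j ∉ Finset.range N, kj j x = 0 := by
    intro j hj
    rw [Finset.mem_range, not_lt] at hj
    exact kj_zero j x (hbig j hj)
  have h1 : HasSum (fun j => kj j x) (∑ j ∈ Finset.range N, kj j x) :=
    hasSum_sum_of_ne_finset_zero h0
  have e : ∑ j ∈ Finset.range N, kj j x = G0 x := by
    rw [Finset.sum_congr rfl fun j _ => kj_eq j x hx, ← Finset.sum_mul, psi_sum,
      chi_zero _ (hbig N le_rfl), sub_zero]
    rfl
  rwa [e] at h1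

lemma kj_smooth (j : ℕ) : ContDiff ℝ ∞ (kj j) := by
  unfold kj
  exact (kap_smooth.comp (contDiff_const_smul _)).sub
    (contDiff_const.mul (psi_smooth.comp (contDiff_const_smul _)))

lemma fderiv_dil {q : E2 → ℝ} (hq : ContDiff ℝ ∞ q) (j : ℕ) (x : E2) :
    HasFDerivAt (fun x => q ((2 : ℝ) ^ j • x)) ((2 : ℝ) ^ j • fderiv ℝ q ((2 : ℝ) ^ j • x)) x := by
  have hd : HasFDerivAt q (fderiv ℝ q ((2 : ℝ) ^ j • x)) ((2 : ℝ) ^ j • x) :=
    (hq.differentiable (by norm_num)).differentiableAt.hasFDerivAt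
  have h1 : HasFDerivAt (fun y : E2 => (2 : ℝ) ^ j • y) ((2 : ℝ) ^ j • ContinuousLinearMap.id ℝ E2) x :=
    (hasFDerivAt_id x).const_smul ((2 : ℝ) ^ j)
  have h2 := HasFDerivAt.comp x hd h1
  have e : (fderiv ℝ q ((2 : ℝ) ^ j • x)).comp ((2 : ℝ) ^ j • ContinuousLinearMap.id ℝ E2) =
      (2 : ℝ) ^ j • fderiv ℝ q ((2 : ℝ) ^ j • x) := by
    ext v
    simp
  rw [e] at h2
  exact h2

lemma kj_fderiv (j : ℕ) (x : E2) :
    fderiv ℝ (kj j) x = (2 : ℝ) ^ j • fderiv ℝ kap ((2 : ℝ) ^ j • x) -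
      (j * Real.log 2) • ((2 : ℝ) ^ j • fderiv ℝ psi ((2 : ℝ) ^ j • x)) :=
  ((fderiv_dil kap_smooth j x).sub ((fderiv_dil psi_smooth j x).const_mul (j * Real.log 2))).fderiv

lemma int_scale (q : E2 → ℝ) (j : ℕ) :
    ∫ w, q ((2 : ℝ) ^ j • w) = ((2 : ℝ) ^ j)⁻¹ ^ 2 * ∫ w, q w := by
  rw [Measure.integral_comp_smul_of_nonneg (volume : Measure E2) q _ (hR := by positivity)]
  have hd : Module.finrank ℝ E2 = 2 := by simp
  rw [hd, smul_eq_mul, inv_pow]

/-- the total mass -/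
noncomputable def AA : ℝ := (∫ w, ‖kap w‖) + (∫ w, ‖psi w‖) + (∫ w, ‖fderiv ℝ kap w‖) +
  ∫ w, ‖fderiv ℝ psi w‖

/-- the summable bound -/
noncomputable def Sj (j : ℕ) : ℝ := (1 / 2) ^ j * (1 + j) * AA

lemma supp_of_zero {q : E2 → ℝ} (h : ∀ x, 1 ≤ ‖x‖ → q x = 0) : HasCompactSupport q :=
  HasCompactSupport.intro (isCompact_closedBall (0 : E2) 1) fun x hx => h x (by
    simp only [mem_closedBall, dist_zero_right, not_le] at hx
    exact hx.le)

lemma dil_int {q : E2 → ℝ} (hq : Continuous q) (h : HasCompactSupport q) (j : ℕ) :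
    Integrable fun w => q ((2 : ℝ) ^ j • w) :=
  (hq.integrable_of_hasCompactSupport h).comp_smul (by positivity)

lemma masses : 0 ≤ (∫ w, ‖kap w‖) ∧ 0 ≤ (∫ w, ‖psi w‖) ∧ 0 ≤ (∫ w, ‖fderiv ℝ kap w‖) ∧
    0 ≤ ∫ w, ‖fderiv ℝ psi w‖ :=
  ⟨integral_nonneg fun _ => norm_nonneg _, integral_nonneg fun _ => norm_nonneg _,
    integral_nonneg fun _ => norm_nonneg _, integral_nonneg fun _ => norm_nonneg _⟩

lemma log2 : 0 ≤ Real.log 2 ∧ Real.log 2 ≤ 1 := by
  have h1 := Real.log_two_lt_d9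
  have h2 := Real.log_two_gt_d9
  constructor <;> linarith

lemma kj_int (j : ℕ) : ∫ w, ‖kj j w‖ ≤ Sj j := by
  obtain ⟨m1, m2, m3, m4⟩ := masses
  obtain ⟨l1, l2⟩ := log2
  have i1 := (dil_int kap_smooth.continuous (supp_of_zero kap_zero) j).norm
  have i2 := (dil_int psi_smooth.continuous (supp_of_zero psi_zero) j).norm
  have hi : Integrable (kj j) := by
    unfold kj
    exact (dil_int kap_smooth.continuous (supp_of_zero kap_zero) j).sub
      ((dil_int psi_smooth.continuous (supp_of_zero psi_zero) j).const_mul _)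
  calc ∫ w, ‖kj j w‖ ≤ ∫ w, (‖kap ((2 : ℝ) ^ j • w)‖ + j * ‖psi ((2 : ℝ) ^ j • w)‖) := by
        refine integral_mono hi.norm (i1.add (i2.const_mul _)) fun w => ?_
        unfold kj
        refine (norm_sub_le _ _).trans ?_
        rw [norm_mul, Real.norm_of_nonneg (by positivity : 0 ≤ (j : ℝ) * Real.log 2)]
        have : (j : ℝ) * Real.log 2 ≤ j := mul_le_of_le_one_right (by positivity) l2
        have := mul_le_mul_of_nonneg_right this (norm_nonneg (psi ((2 : ℝ) ^ j • w)))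
        linarith
    _ = ((2 : ℝ) ^ j)⁻¹ ^ 2 * ((∫ w, ‖kap w‖) + j * ∫ w, ‖psi w‖) := by
        rw [integral_add i1 (i2.const_mul _), integral_const_mul, int_scale (fun w => ‖kap w‖),
          int_scale (fun w => ‖psi w‖)]
        ring
    _ ≤ Sj j := by
        unfold Sj AA
        have h1 : ((2 : ℝ) ^ j)⁻¹ = (1 / 2) ^ j := by rw [one_div, inv_pow]
        rw [h1]
        have h3 : ((1 / 2 : ℝ) ^ j) ≤ 1 := pow_le_one₀ (by norm_num) (by norm_num)
        have h4 : (0 : ℝ) < (1 / 2) ^ j := by positivity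
        have h5 : ((1 / 2 : ℝ) ^ j) ^ 2 ≤ (1 / 2) ^ j := by nlinarith
        rw [mul_assoc]
        have h6 : (0 : ℝ) ≤ j := by positivity
        refine mul_le_mul h5 ?_ (by positivity) h4.le
        nlinarith [mul_nonneg h6 m1, mul_nonneg h6 m2, mul_nonneg h6 m3, mul_nonneg h6 m4]

lemma kj_fint (j : ℕ) : ∫ w, ‖fderiv ℝ (kj j) w‖ ≤ Sj j := by
  obtain ⟨m1, m2, m3, m4⟩ := masses
  obtain ⟨l1, l2⟩ := log2
  have c1 : Continuous fun w => ‖fderiv ℝ kap w‖ := (kap_smooth.continuous_fderiv (by norm_num)).norm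
  have c2 : Continuous fun w => ‖fderiv ℝ psi w‖ := (psi_smooth.continuous_fderiv (by norm_num)).norm
  have s1 : HasCompactSupport fun w => ‖fderiv ℝ kap w‖ :=
    ((supp_of_zero kap_zero).fderiv (𝕜 := ℝ)).norm
  have s2 : HasCompactSupport fun w => ‖fderiv ℝ psi w‖ :=
    ((supp_of_zero psi_zero).fderiv (𝕜 := ℝ)).norm
  have i1 := dil_int c1 s1 j
  have i2 := dil_int c2 s2 j
  have hle : ∀ w, ‖fderiv ℝ (kj j) w‖ ≤ 2 ^ j * ‖fderiv ℝ kap ((2 : ℝ) ^ j • w)‖ +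
      (j * 2 ^ j) * ‖fderiv ℝ psi ((2 : ℝ) ^ j • w)‖ := by
    intro w
    rw [kj_fderiv]
    refine (norm_sub_le _ _).trans ?_
    rw [norm_smul, norm_smul, norm_smul, Real.norm_of_nonneg (by positivity : (0 : ℝ) ≤ 2 ^ j),
      Real.norm_of_nonneg (by positivity : 0 ≤ (j : ℝ) * Real.log 2)]
    have h1 : (j : ℝ) * Real.log 2 ≤ j := mul_le_of_le_one_right (by positivity) l2
    have h2 := mul_le_mul_of_nonneg_right h1
      (by positivity : 0 ≤ 2 ^ j * ‖fderiv ℝ psi ((2 : ℝ) ^ j • w)‖)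
    linarith
  have hci : Integrable fun w => ‖fderiv ℝ (kj j) w‖ := by
    have hs : HasCompactSupport (kj j) := by
      refine supp_of_zero fun x hx => kj_zero j x ?_
      rw [norm_smul, Real.norm_of_nonneg (by positivity)]
      have : (1 : ℝ) ≤ 2 ^ j := one_le_pow₀ (by norm_num)
      nlinarith
    exact (((kj_smooth j).continuous_fderiv (by norm_num)).integrable_of_hasCompactSupport
      (hs.fderiv (𝕜 := ℝ))).norm
  calc ∫ w, ‖fderiv ℝ (kj j) w‖ ≤ ∫ w, (2 ^ j * ‖fderiv ℝ kap ((2 : ℝ) ^ j • w)‖ +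
      (j * 2 ^ j) * ‖fderiv ℝ psi ((2 : ℝ) ^ j • w)‖) :=
        integral_mono hci ((i1.const_mul _).add (i2.const_mul _)) hle
    _ = (2 ^ j * ((2 : ℝ) ^ j)⁻¹ ^ 2) * ((∫ w, ‖fderiv ℝ kap w‖) + j * ∫ w, ‖fderiv ℝ psi w‖) := by
        rw [integral_add (i1.const_mul _) (i2.const_mul _), integral_const_mul, integral_const_mul,
          int_scale (fun w => ‖fderiv ℝ kap w‖), int_scale (fun w => ‖fderiv ℝ psi w‖)]
        ring
    _ ≤ Sj j := by
        unfold Sj AA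
        have h1 : (2 ^ j * ((2 : ℝ) ^ j)⁻¹ ^ 2) = (1 / 2) ^ j := by
          simp only [one_div, inv_pow]
          field_simp
        rw [h1]
        have h4 : (0 : ℝ) < (1 / 2) ^ j := by positivity
        rw [mul_assoc]
        have h6 : (0 : ℝ) ≤ j := by positivity
        refine mul_le_mul_of_nonneg_left ?_ h4.le
        nlinarith [mul_nonneg h6 m1, mul_nonneg h6 m2, mul_nonneg h6 m3, mul_nonneg h6 m4]

lemma Sj_summable : Summable Sj := by
  have h1 : Summable fun j : ℕ => ((j : ℝ) ^ 1 * (1 / 2 : ℝ) ^ j) :=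
    summable_pow_mul_geometric_of_norm_lt_one 1 (by norm_num)
  have h2 : Summable fun j : ℕ => ((1 / 2 : ℝ) ^ j) :=
    summable_geometric_of_lt_one (by norm_num) (by norm_num)
  have h3 := (h2.add h1).mul_right AA
  refine h3.congr fun j => ?_
  unfold Sj
  ring

end Pool.Agent.H123R3.P2
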