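import Pool.Agent.H123R3.P2.N1
import Pool.Agent.H314.CS.Dist

/-! # Regularity of potentials with the near kernel -/

set_option autoImplicit false

open MeasureTheory Set Filter Topology Metric
open scoped ENNReal NNReal ContDiff

namespace Pool.Agent.H123R3.P2

variable {F : Type} [NormedAddCommGroup F] [NormedSpace ℝ F]

/-- potential with the near kernel -/
noncomputable def NC (φ : E2 → F) (X : E2) : F := ∫ w, G0 (X - w) • φ w

/-- potential with a dyadic piece -/
noncomputable def NJ (φ : E2 → F) (j : ℕ) (X : E2) : F := ∫ w, kj j (X - w) • φ w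

lemma kj_supp (j : ℕ) : HasCompactSupport (kj j) := by
  refine supp_of_zero fun x hx => kj_zero j x ?_
  rw [norm_smul, Real.norm_of_nonneg (by positivity)]
  have : (1 : ℝ) ≤ 2 ^ j := one_le_pow₀ (by norm_num)
  nlinarith

lemma kj_bdd (j : ℕ) : ∃ C, 0 ≤ C ∧ (∀ x, ‖kj j x‖ ≤ C) ∧ ∀ x, ‖fderiv ℝ (kj j) x‖ ≤ C := by
  obtain ⟨C1, hC1⟩ := (kj_supp j).exists_bound_of_continuous (kj_smooth j).continuous
  have hc : Continuous (fderiv ℝ (kj j)) := (kj_smooth j).continuous_fderiv (by norm_num)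
  obtain ⟨C2, hC2⟩ := ((kj_supp j).fderiv (𝕜 := ℝ)).exists_bound_of_continuous hc
  have h1 : 0 ≤ C1 := (norm_nonneg _).trans (hC1 0)
  exact ⟨max C1 C2, le_max_of_le_left h1, fun x => (hC1 x).trans (le_max_left _ _),
    fun x => (hC2 x).trans (le_max_right _ _)⟩

lemma kj_integrable (j : ℕ) : Integrable (kj j) :=
  (kj_smooth j).continuous.integrable_of_hasCompactSupport (kj_supp j)

lemma smulRight_cont {φ : E2 → F} (hφ : Continuous φ) {T : E2 → (E2 →L[ℝ] ℝ)} (hT : Continuous T) :
    Continuous fun w => (T w).smulRight (φ w) := by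
  have h1 : Continuous fun w => (ContinuousLinearMap.smulRightL ℝ E2 F (T w)) (φ w) :=
    ((ContinuousLinearMap.smulRightL ℝ E2 F).continuous.comp hT).clm_apply hφ
  exact h1

lemma NJ_hasFDerivAt {φ : E2 → F} (hφ : Continuous φ) (hs : HasCompactSupport φ) (j : ℕ) (X : E2) :
    HasFDerivAt (NJ φ j) (∫ w, (fderiv ℝ (kj j) (X - w)).smulRight (φ w)) X := by
  obtain ⟨C, hC0, hC1, hC2⟩ := kj_bdd j
  have hφi : Integrable φ := hφ.integrable_of_hasCompactSupport hs
  have hc := (kj_smooth j).continuous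
  have hc' : Continuous (fderiv ℝ (kj j)) := (kj_smooth j).continuous_fderiv (by norm_num)
  refine hasFDerivAt_integral_of_dominated_of_fderiv_le (F := fun X w => kj j (X - w) • φ w)
    (F' := fun X w => (fderiv ℝ (kj j) (X - w)).smulRight (φ w)) (bound := fun w => C * ‖φ w‖)
    (ball_mem_nhds X one_pos) ?_ ?_ ?_ (ae_of_all _ ?_) (hφi.norm.const_mul C) (ae_of_all _ ?_)
  · refine Eventually.of_forall fun Y => ?_
    exact ((hc.comp (by fun_prop)).smul hφ).aestronglyMeasurable
  · refine hφi.bdd_smul C ?_ (ae_of_all _ fun w => hC1 _)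
    exact (hc.comp (by fun_prop)).aestronglyMeasurable
  · exact (smulRight_cont hφ (hc'.comp (by fun_prop))).aestronglyMeasurable
  · intro w Y _
    rw [ContinuousLinearMap.norm_smulRight_apply]
    exact mul_le_mul_of_nonneg_right (hC2 _) (norm_nonneg _)
  · intro w Y _
    have hd : HasFDerivAt (kj j) (fderiv ℝ (kj j) (Y - w)) (Y - w) :=
      ((kj_smooth j).differentiable (by norm_num)).differentiableAt.hasFDerivAt
    have h1 : HasFDerivAt (fun y : E2 => y - w) (ContinuousLinearMap.id ℝ E2) Y :=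
      (hasFDerivAt_id Y).sub_const w
    have h2 := (HasFDerivAt.comp Y hd h1).smul_const (φ w)
    rwa [ContinuousLinearMap.comp_id] at h2

lemma int_transl (q : E2 → ℝ) (X : E2) : ∫ w, q (X - w) = ∫ w, q w :=
  integral_sub_left_eq_self q volume X

lemma NJ_term_int {φ : E2 → F} (hφ : Continuous φ) {S : ℝ} (hS : ∀ w, ‖φ w‖ ≤ S) (j : ℕ) (X : E2) :
    Integrable (fun w => kj j (X - w) • φ w) ∧
      ∫ w, ‖kj j (X - w) • φ w‖ ≤ S * Sj j := by
  have hki : Integrable fun w => kj j (X - w) := (kj_integrable j).comp_sub_left X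
  have hi : Integrable (fun w => kj j (X - w) • φ w) :=
    hki.smul_bdd S hφ.aestronglyMeasurable (ae_of_all _ hS)
  refine ⟨hi, ?_⟩
  have hS0 : 0 ≤ S := (norm_nonneg _).trans (hS 0)
  calc ∫ w, ‖kj j (X - w) • φ w‖ ≤ ∫ w, S * ‖kj j (X - w)‖ := by
        apply integral_mono hi.norm (hki.norm.const_mul S)
        intro w
        simp only
        rw [norm_smul, mul_comm]
        exact mul_le_mul_of_nonneg_right (hS w) (norm_nonneg _)
    _ = S * ∫ w, ‖kj j w‖ := by
        rw [integral_const_mul, int_transl (fun w => ‖kj j w‖)]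
    _ ≤ _ := mul_le_mul_of_nonneg_left (kj_int j) hS0

lemma NJ_norm_fderiv {φ : E2 → F} {S : ℝ} (hS : ∀ w, ‖φ w‖ ≤ S) (j : ℕ) (X : E2) :
    ‖∫ w, (fderiv ℝ (kj j) (X - w)).smulRight (φ w)‖ ≤ S * Sj j := by
  have hS0 : 0 ≤ S := (norm_nonneg _).trans (hS 0)
  have hc' : Continuous (fderiv ℝ (kj j)) := (kj_smooth j).continuous_fderiv (by norm_num)
  have hi1 : Integrable (fderiv ℝ (kj j)) :=
    hc'.integrable_of_hasCompactSupport ((kj_supp j).fderiv (𝕜 := ℝ))
  have hki : Integrable fun w => fderiv ℝ (kj j) (X - w) := hi1.comp_sub_left X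
  calc ‖∫ w, (fderiv ℝ (kj j) (X - w)).smulRight (φ w)‖ ≤
      ∫ w, S * ‖fderiv ℝ (kj j) (X - w)‖ := by
        apply norm_integral_le_of_norm_le (hki.norm.const_mul S)
        refine ae_of_all _ fun w => ?_
        rw [ContinuousLinearMap.norm_smulRight_apply, mul_comm]
        exact mul_le_mul_of_nonneg_right (hS w) (norm_nonneg _)
    _ = S * ∫ w, ‖fderiv ℝ (kj j) w‖ := by
        rw [integral_const_mul, int_transl (fun w => ‖fderiv ℝ (kj j) w‖)]
    _ ≤ _ := mul_le_mul_of_nonneg_left (kj_fint j) hS0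

lemma NC_eq_tsum {φ : E2 → F} (hφ : Continuous φ) {S : ℝ} (hS : ∀ w, ‖φ w‖ ≤ S) (X : E2) :
    NC φ X = ∑' j, NJ φ j X := by
  have hsum : Summable fun j : ℕ => S * Sj j :=
    Sj_summable.mul_left _
  have h1 := integral_tsum_of_summable_integral_norm (μ := (volume : Measure E2))
    (F := fun j w => kj j (X - w) • φ w)
    (fun j => (NJ_term_int hφ hS j X).1)
    (Summable.of_nonneg_of_le (fun j => integral_nonneg fun _ => norm_nonneg _)
      (fun j => (NJ_term_int hφ hS j X).2) hsum)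
  unfold NJ
  rw [h1]
  unfold NC
  apply integral_congr_ae
  have hne : ∀ᵐ w : E2, w ≠ X := by rw [ae_iff]; simp
  filter_upwards [hne] with w hw
  exact ((kj_hasSum (X - w) (sub_ne_zero.2 (Ne.symm hw))).smul_const (φ w)).tsum_eq.symm

lemma NC_contDiff_one [CompleteSpace F] {φ : E2 → F} (hφ : Continuous φ)
    (hs : HasCompactSupport φ) : ContDiff ℝ 1 (NC φ) := by
  obtain ⟨S, hS⟩ := hs.exists_bound_of_continuous hφ
  have e : NC φ = fun X => ∑' j, NJ φ j X := by
    ext X; exact NC_eq_tsum hφ hS X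
  rw [e]
  have hsum : Summable fun j : ℕ => S * Sj j :=
    Sj_summable.mul_left _
  have hd : ∀ j X, fderiv ℝ (NJ φ j) X = ∫ w, (fderiv ℝ (kj j) (X - w)).smulRight (φ w) :=
    fun j X => (NJ_hasFDerivAt hφ hs j X).fderiv
  have hC1 : ∀ j, ContDiff ℝ ((1 : ℕ∞) : WithTop ℕ∞) (NJ φ j) := by
    intro j
    obtain ⟨C, hC0, hC1, hC2⟩ := kj_bdd j
    have hφi : Integrable φ := hφ.integrable_of_hasCompactSupport hs
    have hc' : Continuous (fderiv ℝ (kj j)) := (kj_smooth j).continuous_fderiv (by norm_num)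
    rw [show ((1 : ℕ∞) : WithTop ℕ∞) = 1 from rfl, contDiff_one_iff_hasFDerivAt]
    refine ⟨fun X => ∫ w, (fderiv ℝ (kj j) (X - w)).smulRight (φ w), ?_, NJ_hasFDerivAt hφ hs j⟩
    refine continuous_of_dominated (bound := fun w => C * ‖φ w‖) ?_ ?_ (hφi.norm.const_mul C) ?_
    · intro X
      exact (smulRight_cont hφ (hc'.comp (by fun_prop))).aestronglyMeasurable
    · intro X
      refine ae_of_all _ fun w => ?_
      rw [ContinuousLinearMap.norm_smulRight_apply]
      exact mul_le_mul_of_nonneg_right (hC2 _) (norm_nonneg _)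
    · refine ae_of_all _ fun w => ?_
      exact smulRight_cont (φ := fun _ : E2 => φ w) continuous_const (hc'.comp (by fun_prop))
  refine contDiff_tsum (N := 1) (v := fun _ j => S * Sj j) hC1
    (fun _ _ => hsum) ?_
  intro k j X hk
  have hk1 : k ≤ 1 := by exact_mod_cast hk
  interval_cases k
  · rw [norm_iteratedFDeriv_zero]
    exact (norm_integral_le_integral_norm _).trans (NJ_term_int hφ hS j X).2
  · rw [norm_iteratedFDeriv_one, hd]
    exact NJ_norm_fderiv hS j X

lemma G0_integrable : Integrable G0 := by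
  have := Pool.Agent.H314.CS.LL.locInt_log0.integrable_smul_left_of_hasCompactSupport
    (chi.contDiff (n := 0)).continuous chi.hasCompactSupport
  exact this

lemma NC_eq (φ : E2 → F) (X : E2) : NC φ X = ∫ w, G0 w • φ (X - w) := by
  have := integral_sub_left_eq_self (fun w => G0 w • φ (X - w)) (volume : Measure E2) X
  rw [← this]
  unfold NC
  congr 1
  ext w
  rw [sub_sub_cancel]

lemma NC_hasFDerivAt {φ : E2 → F} (hφ : ContDiff ℝ 1 φ) (hs : HasCompactSupport φ) (X : E2) :
    HasFDerivAt (NC φ) (NC (fderiv ℝ φ) X) X := by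
  have hc := hφ.continuous
  have hc' : Continuous (fderiv ℝ φ) := hφ.continuous_fderiv (by norm_num)
  obtain ⟨S, hS⟩ := hs.exists_bound_of_continuous hc
  obtain ⟨S', hS'⟩ := (hs.fderiv (𝕜 := ℝ)).exists_bound_of_continuous hc'
  rw [NC_eq, show NC φ = fun X => ∫ w, G0 w • φ (X - w) from funext (NC_eq φ)]
  refine hasFDerivAt_integral_of_dominated_of_fderiv_le (F := fun X w => G0 w • φ (X - w))
    (F' := fun X w => G0 w • fderiv ℝ φ (X - w)) (bound := fun w => ‖G0 w‖ * S')
    (ball_mem_nhds X one_pos) ?_ ?_ ?_ (ae_of_all _ ?_) (G0_integrable.norm.mul_const S')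
    (ae_of_all _ ?_)
  · refine Eventually.of_forall fun Y => ?_
    exact G0_integrable.aestronglyMeasurable.smul (hc.comp (by fun_prop)).aestronglyMeasurable
  · exact G0_integrable.smul_bdd S (hc.comp (by fun_prop)).aestronglyMeasurable
      (ae_of_all _ fun w => hS _)
  · exact G0_integrable.aestronglyMeasurable.smul (hc'.comp (by fun_prop)).aestronglyMeasurable
  · intro w Y _
    rw [norm_smul]
    exact mul_le_mul_of_nonneg_left (hS' _) (norm_nonneg _)
  · intro w Y _
    have hd : HasFDerivAt φ (fderiv ℝ φ (Y - w)) (Y - w) :=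
      (hφ.differentiable (by norm_num)).differentiableAt.hasFDerivAt
    have h1 : HasFDerivAt (fun y : E2 => y - w) (ContinuousLinearMap.id ℝ E2) Y :=
      (hasFDerivAt_id Y).sub_const w
    have h2 := (HasFDerivAt.comp Y hd h1).const_smul (G0 w)
    rwa [ContinuousLinearMap.comp_id] at h2

lemma NC_contDiff (n : ℕ) :
    ∀ {F : Type} [NormedAddCommGroup F] [NormedSpace ℝ F] [CompleteSpace F] {φ : E2 → F}
    (_ : ContDiff ℝ n φ) (_ : HasCompactSupport φ), ContDiff ℝ (n + 1) (NC φ) := by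
  induction n with
  | zero =>
    intro F _ _ _ φ hφ hs
    have := NC_contDiff_one hφ.continuous hs
    simpa using this
  | succ n ih =>
    intro F _ _ _ φ hφ hs
    push_cast at hφ ⊢
    have h1 : ContDiff ℝ 1 φ := hφ.of_le (by exact_mod_cast Nat.le_add_left 1 n)
    have h2 : ContDiff ℝ n (fderiv ℝ φ) := hφ.fderiv_right le_rfl
    have h3 := ih h2 (hs.fderiv (𝕜 := ℝ))
    have h4 : ContDiff ℝ (((n + 1 : ℕ) : WithTop ℕ∞) + 1) (NC φ) := by
      rw [contDiff_succ_iff_hasFDerivAt]
      exact ⟨NC (fderiv ℝ φ), by exact_mod_cast h3, fun X => NC_hasFDerivAt h1 hs X⟩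
    exact_mod_cast h4

lemma near_contDiff {n : ℕ} {g : E2 → ℝ} (hg : ContDiff ℝ n g) :
    ContDiff ℝ (n + 1) (fun X => ∫ w, g w * G0 (X - w)) := by
  rw [contDiff_iff_contDiffAt]
  intro X
  let z : ContDiffBump X := ⟨2, 3, by norm_num, by norm_num⟩
  have h1 : ContDiff ℝ n (fun w => z w * g w) := z.contDiff.mul hg
  have h2 : HasCompactSupport (fun w => z w * g w) := z.hasCompactSupport.mul_right
  have h3 := NC_contDiff n h1 h2
  refine (h3.contDiffAt (x := X)).congr_of_eventuallyEq ?_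
  filter_upwards [ball_mem_nhds X one_pos] with Y hY
  unfold NC
  congr 1
  ext w
  rw [smul_eq_mul]
  by_cases hw : 1 ≤ ‖Y - w‖
  · rw [G0_zero _ hw]; ring
  · have hw' : ‖Y - w‖ < 1 := not_le.1 hw
    have hz : z w = 1 := by
      apply z.one_of_mem_closedBall
      change dist w X ≤ 2
      rw [mem_ball] at hY
      rw [← dist_eq_norm, dist_comm] at hw'
      have := dist_triangle w Y X
      linarith
    change g w * G0 (Y - w) = G0 (Y - w) * (z w * g w)
    rw [hz]; ring

end Pool.Agent.H123R3.P2
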