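import Pool.Agent.H123R3.P2.N2

/-! # The weighted layer and its logarithmic potentials -/

set_option autoImplicit false

open MeasureTheory Set Filter Topology Metric
open scoped ENNReal NNReal ContDiff

namespace Pool.Agent.H123R3.P2

/-- the weight -/
noncomputable def pp (w : E2) : ℝ := (1 + ‖w‖) ^ (1 / 4 : ℝ)

lemma pp_cont : Continuous pp := by
  unfold pp
  exact Continuous.rpow_const (by fun_prop) (fun x => Or.inr (by norm_num))

lemma pp_one (w : E2) : 1 ≤ pp w := Real.one_le_rpow (by linarith [norm_nonneg w]) (by norm_num)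

/-- the wide region -/
def Om (C : ℝ) : Set E2 := {w | |w 0| ≤ C * (1 + |w 1|) ^ (1 / 4 : ℝ)}

lemma Om_meas (C : ℝ) : MeasurableSet (Om C) := by
  have h1 : Continuous fun w : E2 => |w 0| := by fun_prop
  have h2 : Continuous fun w : E2 => C * (1 + |w 1|) ^ (1 / 4 : ℝ) :=
    continuous_const.mul (Continuous.rpow_const (by fun_prop) (fun x => Or.inr (by norm_num)))
  exact (isClosed_le h1 h2).measurableSet

/-- the density -/
noncomputable def k0 (C : ℝ) (w : E2) : ℝ := (Om C).indicator (fun w => 9 * (1 + ‖w‖) ^ (-2 : ℝ)) w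

lemma k0_nonneg (C : ℝ) (w : E2) : 0 ≤ k0 C w :=
  indicator_nonneg (fun _ _ => by positivity) _

lemma k0_meas (C : ℝ) : Measurable (k0 C) := by
  refine Measurable.indicator ?_ (Om_meas C)
  exact (measurable_const.mul ((measurable_const.add measurable_norm).pow_const _))

lemma coord_le (a : E2) (i : Fin 2) : |a i| ≤ ‖a‖ := by
  simpa using PiLp.norm_apply_le a i

lemma iter2 (F : ℝ × ℝ → ℝ≥0∞) (hF : Measurable F) :
    ∫⁻ w : E2, F (w 0, w 1) = ∫⁻ y : ℝ, ∫⁻ x : ℝ, F (x, y) := by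
  have m1 := EuclideanSpace.volume_preserving_symm_measurableEquiv_toLp (Fin 2)
  have m3 := volume_preserving_finTwoArrow ℝ
  have m5 : MeasurePreserving (fun w : E2 => ((w 0, w 1) : ℝ × ℝ)) := m3.comp m1
  rw [m5.lintegral_comp hF, Measure.volume_eq_prod, lintegral_prod_symm' _ hF]

lemma k0_pp_sq (C : ℝ) (w : E2) : k0 C w * pp w ^ 2 ≤
    (Om C).indicator (fun w => 9 * (1 + |w 1|) ^ (-(3 / 2) : ℝ)) w := by
  unfold k0
  by_cases hw : w ∈ Om C
  · rw [indicator_of_mem hw, indicator_of_mem hw]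
    have hp : 0 < 1 + ‖w‖ := by positivity
    have e : (1 + ‖w‖) ^ (-2 : ℝ) * pp w ^ 2 = (1 + ‖w‖) ^ (-(3 / 2) : ℝ) := by
      unfold pp
      rw [← Real.rpow_natCast, ← Real.rpow_mul hp.le, ← Real.rpow_add hp]
      norm_num
    rw [mul_assoc, e]
    have h1 := coord_le w 1
    have h2 : (1 + ‖w‖) ^ (-(3 / 2) : ℝ) ≤ (1 + |w 1|) ^ (-(3 / 2) : ℝ) :=
      Real.rpow_le_rpow_of_nonpos (by positivity) (by linarith) (by norm_num)
    linarith
  · rw [indicator_of_notMem hw, indicator_of_notMem hw, zero_mul]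

lemma k0_integrable (C : ℝ) : Integrable fun w => k0 C w * pp w ^ 2 := by
  have hm : Measurable fun w => k0 C w * pp w ^ 2 := (k0_meas C).mul (pp_cont.measurable.pow_const 2)
  refine ⟨hm.aestronglyMeasurable, ?_⟩
  rw [hasFiniteIntegral_iff_norm]
  set S : Set (ℝ × ℝ) := {p | |p.1| ≤ C * (1 + |p.2|) ^ (1 / 4 : ℝ)} with hS
  have hSm : MeasurableSet S := by
    have h1 : Continuous fun w : ℝ × ℝ => |w.1| := by fun_prop
    have h2 : Continuous fun w : ℝ × ℝ => C * (1 + |w.2|) ^ (1 / 4 : ℝ) :=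
      continuous_const.mul (Continuous.rpow_const (by fun_prop) (fun x => Or.inr (by norm_num)))
    exact (isClosed_le h1 h2).measurableSet
  have hF : Measurable (S.indicator fun p : ℝ × ℝ =>
      ENNReal.ofReal (9 * (1 + |p.2|) ^ (-(3 / 2) : ℝ))) := by
    refine Measurable.indicator ?_ hSm
    fun_prop
  calc ∫⁻ w, ENNReal.ofReal ‖k0 C w * pp w ^ 2‖ ≤ ∫⁻ w : E2, (S.indicator fun p : ℝ × ℝ =>
      ENNReal.ofReal (9 * (1 + |p.2|) ^ (-(3 / 2) : ℝ))) (w 0, w 1) := by
        apply lintegral_mono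
        intro w
        have h0 : 0 ≤ k0 C w * pp w ^ 2 := mul_nonneg (k0_nonneg C w) (by positivity)
        have h1 := k0_pp_sq C w
        by_cases hw : w ∈ Om C
        · have hw2 : ((w 0, w 1) : ℝ × ℝ) ∈ S := hw
          rw [indicator_of_mem hw] at h1
          simp only
          rw [indicator_of_mem hw2, Real.norm_of_nonneg h0]
          exact ENNReal.ofReal_le_ofReal h1
        · rw [indicator_of_notMem hw] at h1
          simp only
          rw [Real.norm_of_nonneg h0, le_antisymm h1 h0]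
          simp
    _ = ∫⁻ y : ℝ, ∫⁻ x : ℝ, (S.indicator fun p : ℝ × ℝ =>
      ENNReal.ofReal (9 * (1 + |p.2|) ^ (-(3 / 2) : ℝ))) (x, y) := iter2 _ hF
    _ ≤ ∫⁻ y : ℝ, ENNReal.ofReal (18 * C * (1 + ‖y‖) ^ (-(5 / 4) : ℝ)) := by
        apply lintegral_mono
        intro y
        have h3 : ∀ x : ℝ, (S.indicator fun p : ℝ × ℝ =>
            ENNReal.ofReal (9 * (1 + |p.2|) ^ (-(3 / 2) : ℝ))) (x, y) =
            (Icc (-(C * (1 + |y|) ^ (1 / 4 : ℝ))) (C * (1 + |y|) ^ (1 / 4 : ℝ))).indicator (fun _ =>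
              ENNReal.ofReal (9 * (1 + |y|) ^ (-(3 / 2) : ℝ))) x := by
          intro x
          have h4 : ((x, y) : ℝ × ℝ) ∈ S ↔
              x ∈ Icc (-(C * (1 + |y|) ^ (1 / 4 : ℝ))) (C * (1 + |y|) ^ (1 / 4 : ℝ)) := by
            simp only [hS, mem_ofPred_eq, abs_le, mem_Icc]
          by_cases hx : ((x, y) : ℝ × ℝ) ∈ S
          · rw [indicator_of_mem hx, indicator_of_mem (h4.1 hx)]
          · rw [indicator_of_notMem hx, indicator_of_notMem (fun h => hx (h4.2 h))]
        simp only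
        simp_rw [h3]
        rw [lintegral_indicator measurableSet_Icc, setLIntegral_const, Real.volume_Icc,
          ← ENNReal.ofReal_mul (by positivity)]
        apply ENNReal.ofReal_le_ofReal
        have hp : 0 < 1 + |y| := by positivity
        have e : (1 + |y|) ^ (-(3 / 2) : ℝ) * (1 + |y|) ^ (1 / 4 : ℝ) = (1 + |y|) ^ (-(5 / 4) : ℝ) := by
          rw [← Real.rpow_add hp]; norm_num
        rw [Real.norm_eq_abs, ← e]
        apply le_of_eq
        ring
    _ < ⊤ := by
        have : Integrable (fun u : ℝ => 18 * C * (1 + ‖u‖) ^ (-(5 / 4 : ℝ))) :=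
          (integrable_one_add_norm (by simp; norm_num)).const_mul _
        exact this.lintegral_lt_top

lemma k0_le (C : ℝ) (w : E2) : k0 C w * pp w ≤ 9 := by
  unfold k0
  by_cases hw : w ∈ Om C
  · rw [indicator_of_mem hw]
    have hp : 0 < 1 + ‖w‖ := by positivity
    have e : (1 + ‖w‖) ^ (-2 : ℝ) * pp w = (1 + ‖w‖) ^ (-(7 / 4) : ℝ) := by
      unfold pp
      rw [← Real.rpow_add hp]
      norm_num
    rw [mul_assoc, e]
    have h2 : (1 + ‖w‖) ^ (-(7 / 4) : ℝ) ≤ 1 :=
      Real.rpow_le_one_of_one_le_of_nonpos (by linarith [norm_nonneg w]) (by norm_num)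
    linarith
  · rw [indicator_of_notMem hw, zero_mul]; norm_num

lemma k0p_integrable (C : ℝ) : Integrable fun w => k0 C w * pp w := by
  refine (k0_integrable C).mono' ((k0_meas C).mul pp_cont.measurable).aestronglyMeasurable
    (ae_of_all _ fun w => ?_)
  have h0 := k0_nonneg C w
  have h1 := pp_one w
  rw [Real.norm_of_nonneg (by positivity)]
  nlinarith [mul_nonneg h0 (by linarith : (0 : ℝ) ≤ pp w)]

lemma invball : IntegrableOn (fun w : E2 => ‖w‖⁻¹) (ball 0 1) := by
  have hd : Module.finrank ℝ E2 = 2 := by simp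
  refine integrableOn_ball_of_norm_le_rpow (μ := (volume : Measure E2)) (C := 1)
    (α := 1) (by rw [hd]; norm_num) (by rw [hd]; norm_num) ?_ ?_
  · refine ae_of_all _ (fun x => ?_)
    rw [one_mul, Real.norm_of_nonneg (by positivity), Real.rpow_neg_one]
  · exact (Measurable.inv measurable_norm).aestronglyMeasurable

/-- constants -/
noncomputable def A1 (C : ℝ) : ℝ := 9 * (∫ w in ball (0 : E2) 1, ‖w‖⁻¹) + ∫ w, k0 C w * pp w

/-- constants -/
noncomputable def A2 (C : ℝ) : ℝ := ∫ w, k0 C w * pp w ^ 2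

lemma sing (C : ℝ) (X : E2) : Integrable (fun w => k0 C w * pp w * ‖X - w‖⁻¹) ∧
    ∫ w, k0 C w * pp w * ‖X - w‖⁻¹ ≤ A1 C := by
  have i1 : Integrable fun w : E2 => (ball (0 : E2) 1).indicator (fun w => ‖w‖⁻¹) (X - w) := by
    have : Integrable ((ball (0 : E2) 1).indicator (fun w => ‖w‖⁻¹)) :=
      (integrable_indicator_iff measurableSet_ball).2 invball
    exact this.comp_sub_left X
  have i2 := k0p_integrable C
  have hle : ∀ w, k0 C w * pp w * ‖X - w‖⁻¹ ≤
      9 * (ball (0 : E2) 1).indicator (fun w => ‖w‖⁻¹) (X - w) + k0 C w * pp w := by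
    intro w
    have h0 : 0 ≤ k0 C w * pp w := mul_nonneg (k0_nonneg C w) (by linarith [pp_one w])
    have h9 := k0_le C w
    by_cases h : ‖X - w‖ < 1
    · rw [indicator_of_mem (by simpa using h)]
      have := mul_le_mul_of_nonneg_right h9 (by positivity : 0 ≤ ‖X - w‖⁻¹)
      linarith
    · rw [indicator_of_notMem (by simpa using h)]
      have : ‖X - w‖⁻¹ ≤ 1 := inv_le_one_of_one_le₀ (not_lt.1 h)
      nlinarith
  have hm : Measurable fun w => k0 C w * pp w * ‖X - w‖⁻¹ :=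
    ((k0_meas C).mul pp_cont.measurable).mul (by fun_prop)
  have hi : Integrable (fun w => k0 C w * pp w * ‖X - w‖⁻¹) := by
    refine ((i1.const_mul 9).add i2).mono' hm.aestronglyMeasurable (ae_of_all _ fun w => ?_)
    have h0 : 0 ≤ k0 C w * pp w * ‖X - w‖⁻¹ :=
      mul_nonneg (mul_nonneg (k0_nonneg C w) (by linarith [pp_one w])) (by positivity)
    rw [Real.norm_of_nonneg h0]
    exact hle w
  refine ⟨hi, ?_⟩
  calc ∫ w, k0 C w * pp w * ‖X - w‖⁻¹ ≤
      ∫ w, (9 * (ball (0 : E2) 1).indicator (fun w => ‖w‖⁻¹) (X - w) + k0 C w * pp w) :=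
        integral_mono hi ((i1.const_mul 9).add i2) hle
    _ = A1 C := by
        unfold A1
        rw [integral_add (i1.const_mul 9) i2, integral_const_mul,
          integral_sub_left_eq_self (fun w => (ball (0 : E2) 1).indicator (fun w => ‖w‖⁻¹) w) volume X,
          integral_indicator measurableSet_ball]

lemma log_bound (t : ℝ) (ht : 0 ≤ t) : |Real.log t| ≤ t⁻¹ + 4 * t ^ (1 / 4 : ℝ) := by
  rcases ht.eq_or_lt with h | h
  · rw [← h]; simp
  rcases le_total t 1 with h1 | h1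
  · rw [abs_of_nonpos (Real.log_nonpos ht h1), ← Real.log_inv]
    have := Real.log_le_sub_one_of_pos (inv_pos.2 h)
    have h2 : 0 ≤ t ^ (1 / 4 : ℝ) := by positivity
    linarith
  · rw [abs_of_nonneg (Real.log_nonneg h1)]
    have := Real.log_le_rpow_div ht (show (0 : ℝ) < 1 / 4 by norm_num)
    have h2 : 0 < t⁻¹ := by positivity
    linarith

/-- the normalised logarithmic kernel -/
noncomputable def KL (X w : E2) : ℝ := Real.log ‖X - w‖ - Real.log ‖w‖

lemma KL_bound (X w : E2) : |KL X w| ≤ ‖X - w‖⁻¹ + ‖w‖⁻¹ + 8 * (pp X * pp w) := by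
  have h1 := log_bound ‖X - w‖ (norm_nonneg _)
  have h2 := log_bound ‖w‖ (norm_nonneg _)
  have h3 : ‖X - w‖ ^ (1 / 4 : ℝ) ≤ pp X * pp w := by
    unfold pp
    rw [← Real.mul_rpow (by positivity) (by positivity)]
    apply Real.rpow_le_rpow (norm_nonneg _) _ (by norm_num)
    have := norm_sub_le X w
    nlinarith [norm_nonneg X, norm_nonneg w, mul_nonneg (norm_nonneg X) (norm_nonneg w)]
  have h4 : ‖w‖ ^ (1 / 4 : ℝ) ≤ pp X * pp w := by
    have h5 : ‖w‖ ^ (1 / 4 : ℝ) ≤ pp w :=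
      Real.rpow_le_rpow (norm_nonneg _) (by linarith [norm_nonneg w]) (by norm_num)
    have := pp_one X
    have := pp_one w
    nlinarith
  unfold KL
  have := abs_sub (Real.log ‖X - w‖) (Real.log ‖w‖)
  linarith

/-- the constant of the kernel estimate -/
noncomputable def A3 (C : ℝ) : ℝ := 2 * A1 C + 8 * A2 C

lemma A1_nonneg (C : ℝ) : 0 ≤ A1 C :=
  add_nonneg (mul_nonneg (by norm_num) (integral_nonneg fun _ => by positivity))
    (integral_nonneg fun w => mul_nonneg (k0_nonneg C w) (by linarith [pp_one w]))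

lemma A2_nonneg (C : ℝ) : 0 ≤ A2 C :=
  integral_nonneg fun w => mul_nonneg (k0_nonneg C w) (by positivity)

lemma A3_nonneg (C : ℝ) : 0 ≤ A3 C := by
  unfold A3
  linarith [A1_nonneg C, A2_nonneg C]

lemma KL_meas (X : E2) : Measurable (KL X) := by
  unfold KL
  fun_prop

lemma KL_int (C : ℝ) (X : E2) : Integrable (fun w => k0 C w * pp w * |KL X w|) ∧
    ∫ w, k0 C w * pp w * |KL X w| ≤ A3 C * pp X := by
  have s1 := sing C X
  have s2 := sing C 0
  have e0 : ∀ w : E2, ‖(0 : E2) - w‖⁻¹ = ‖w‖⁻¹ := fun w => by rw [zero_sub, norm_neg]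
  simp_rw [e0] at s2
  have i3 := (k0_integrable C).const_mul (8 * pp X)
  have hle : ∀ w, k0 C w * pp w * |KL X w| ≤ k0 C w * pp w * ‖X - w‖⁻¹ + k0 C w * pp w * ‖w‖⁻¹ +
      8 * pp X * (k0 C w * pp w ^ 2) := by
    intro w
    have h0 : 0 ≤ k0 C w * pp w := mul_nonneg (k0_nonneg C w) (by linarith [pp_one w])
    have := mul_le_mul_of_nonneg_left (KL_bound X w) h0
    nlinarith
  have hm : Measurable fun w => k0 C w * pp w * |KL X w| :=
    ((k0_meas C).mul pp_cont.measurable).mul (KL_meas X).abs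
  have hi : Integrable (fun w => k0 C w * pp w * |KL X w|) := by
    refine ((s1.1.add s2.1).add i3).mono' hm.aestronglyMeasurable (ae_of_all _ fun w => ?_)
    have h0 : 0 ≤ k0 C w * pp w * |KL X w| :=
      mul_nonneg (mul_nonneg (k0_nonneg C w) (by linarith [pp_one w])) (by positivity)
    rw [Real.norm_of_nonneg h0]
    exact hle w
  refine ⟨hi, ?_⟩
  calc ∫ w, k0 C w * pp w * |KL X w| ≤ ∫ w, (k0 C w * pp w * ‖X - w‖⁻¹ + k0 C w * pp w * ‖w‖⁻¹ +
      8 * pp X * (k0 C w * pp w ^ 2)) := integral_mono hi ((s1.1.add s2.1).add i3) hle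
    _ = (∫ w, k0 C w * pp w * ‖X - w‖⁻¹) + (∫ w, k0 C w * pp w * ‖w‖⁻¹) + 8 * pp X * A2 C := by
        have s12 : Integrable fun w => k0 C w * pp w * ‖X - w‖⁻¹ + k0 C w * pp w * ‖w‖⁻¹ :=
          s1.1.add s2.1
        rw [integral_add s12 i3, integral_add s1.1 s2.1, integral_const_mul]
        rfl
    _ ≤ A3 C * pp X := by
        unfold A3
        have h1 := pp_one X
        have h2 := A1_nonneg C
        have h3 := s1.2
        have h4 := s2.2
        nlinarith

end Pool.Agent.H123R3.P2
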