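import Pool.Agent.H123R3.P2.N3

/-! # Potentials of weighted layers: bounds, regularity, equation -/

set_option autoImplicit false

open MeasureTheory Set Filter Topology Metric
open scoped ENNReal NNReal ContDiff Laplacian

namespace Pool.Agent.H123R3.P2

/-- functions dominated by the density -/
structure Lay (C M : ℝ) (g : E2 → ℝ) : Prop where
  meas : Measurable g
  M0 : 0 ≤ M
  bdd : ∀ w, |g w| ≤ M * k0 C w

/-- functions dominated by the density times the weight -/
structure LayP (C M : ℝ) (g : E2 → ℝ) : Prop where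
  meas : Measurable g
  M0 : 0 ≤ M
  bdd : ∀ w, |g w| ≤ M * (k0 C w * pp w)

lemma Lay.layP {C M : ℝ} {g : E2 → ℝ} (h : Lay C M g) : LayP C M g where
  meas := h.meas
  M0 := h.M0
  bdd := fun w => by
    refine (h.bdd w).trans ?_
    apply mul_le_mul_of_nonneg_left _ h.M0
    have := k0_nonneg C w
    have := pp_one w
    nlinarith

/-- the potential -/
noncomputable def PL (g : E2 → ℝ) (X : E2) : ℝ := ∫ w, g w * KL X w

lemma LayP.int {C M : ℝ} {g : E2 → ℝ} (h : LayP C M g) (X : E2) :
    Integrable (fun w => g w * KL X w) ∧ Integrable (fun w => |g w| * |KL X w|) ∧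
    ∫ w, |g w| * |KL X w| ≤ M * (A3 C * pp X) ∧ |PL g X| ≤ M * (A3 C * pp X) := by
  have hk := KL_int C X
  have hi : Integrable fun w => M * (k0 C w * pp w * |KL X w|) := hk.1.const_mul M
  have hle : ∀ w, |g w| * |KL X w| ≤ M * (k0 C w * pp w * |KL X w|) := by
    intro w
    have := mul_le_mul_of_nonneg_right (h.bdd w) (abs_nonneg (KL X w))
    linarith
  have h1 : Integrable (fun w => g w * KL X w) := by
    refine hi.mono' (h.meas.mul (KL_meas X)).aestronglyMeasurable (ae_of_all _ fun w => ?_)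
    rw [Real.norm_eq_abs, abs_mul]
    exact hle w
  have h2 : Integrable (fun w => |g w| * |KL X w|) := by
    refine h1.norm.congr (ae_of_all _ fun w => ?_)
    simp only
    rw [Real.norm_eq_abs, abs_mul]
  have h3 : ∫ w, |g w| * |KL X w| ≤ M * (A3 C * pp X) := by
    refine (integral_mono h2 hi hle).trans ?_
    rw [integral_const_mul]
    exact mul_le_mul_of_nonneg_left hk.2 h.M0
  refine ⟨h1, h2, h3, ?_⟩
  refine le_trans ?_ h3
  unfold PL
  rw [← Real.norm_eq_abs]
  refine (norm_integral_le_integral_norm _).trans (le_of_eq ?_)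
  congr 1
  ext w
  rw [Real.norm_eq_abs, abs_mul]

lemma log_sub_le (s t : ℝ) (hs : 0 < s) (ht : 0 < t) :
    |Real.log s - Real.log t| ≤ |s - t| * (s⁻¹ + t⁻¹) := by
  have key : ∀ s t : ℝ, 0 < s → 0 < t → Real.log s - Real.log t ≤ |s - t| * (s⁻¹ + t⁻¹) := by
    intro s t hs ht
    rw [← Real.log_div hs.ne' ht.ne']
    have h1 := Real.log_le_sub_one_of_pos (div_pos hs ht)
    have h2 : s / t - 1 = (s - t) * t⁻¹ := by field_simp
    rw [h2] at h1
    have h3 := le_abs_self (s - t)
    have h4 : 0 < t⁻¹ := by positivity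
    have h5 : 0 < s⁻¹ := by positivity
    nlinarith [abs_nonneg (s - t)]
  rw [abs_le]
  constructor
  · have := key t s ht hs
    rw [abs_sub_comm] at this
    linarith
  · exact key s t hs ht

lemma Lay.lip {C M : ℝ} {g : E2 → ℝ} (h : Lay C M g) (X Y : E2) :
    |PL g X - PL g Y| ≤ M * (2 * A1 C) * ‖X - Y‖ := by
  have s1 := sing C X
  have s2 := sing C Y
  have hne : ∀ X : E2, ∀ᵐ w : E2, X - w ≠ 0 := by
    intro X
    have : ∀ᵐ w : E2, w ≠ X := by rw [ae_iff]; simp
    filter_upwards [this] with w hw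
    exact sub_ne_zero.2 (Ne.symm hw)
  have e : PL g X - PL g Y = ∫ w, g w * (KL X w - KL Y w) := by
    unfold PL
    rw [← integral_sub (h.layP.int X).1 (h.layP.int Y).1]
    congr 1
    ext w
    ring
  have hi : Integrable fun w => M * ‖X - Y‖ * (k0 C w * pp w * ‖X - w‖⁻¹ + k0 C w * pp w * ‖Y - w‖⁻¹) :=
    (s1.1.add s2.1).const_mul _
  have hle : ∀ᵐ w, ‖g w * (KL X w - KL Y w)‖ ≤
      M * ‖X - Y‖ * (k0 C w * pp w * ‖X - w‖⁻¹ + k0 C w * pp w * ‖Y - w‖⁻¹) := by
    filter_upwards [hne X, hne Y] with w hX hY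
    have hX' : 0 < ‖X - w‖ := norm_pos_iff.2 hX
    have hY' : 0 < ‖Y - w‖ := norm_pos_iff.2 hY
    rw [Real.norm_eq_abs, abs_mul]
    have h1 : |KL X w - KL Y w| ≤ ‖X - Y‖ * (‖X - w‖⁻¹ + ‖Y - w‖⁻¹) := by
      unfold KL
      rw [sub_sub_sub_cancel_right]
      refine (log_sub_le _ _ hX' hY').trans ?_
      apply mul_le_mul_of_nonneg_right _ (by positivity)
      have := abs_norm_sub_norm_le (X - w) (Y - w)
      rwa [sub_sub_sub_cancel_right] at this
    have h2 := h.layP.bdd w
    have h3 : 0 ≤ k0 C w * pp w := mul_nonneg (k0_nonneg C w) (by linarith [pp_one w])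
    calc |g w| * |KL X w - KL Y w| ≤ (M * (k0 C w * pp w)) *
          (‖X - Y‖ * (‖X - w‖⁻¹ + ‖Y - w‖⁻¹)) :=
          mul_le_mul h2 h1 (abs_nonneg _) (mul_nonneg h.M0 h3)
      _ = _ := by ring
  rw [e]
  refine (norm_integral_le_of_norm_le hi hle).trans ?_
  rw [integral_const_mul, integral_add s1.1 s2.1]
  have h5 : 0 ≤ M * ‖X - Y‖ := mul_nonneg h.M0 (norm_nonneg _)
  calc M * ‖X - Y‖ * ((∫ w, k0 C w * pp w * ‖X - w‖⁻¹) + ∫ w, k0 C w * pp w * ‖Y - w‖⁻¹) ≤
      M * ‖X - Y‖ * (A1 C + A1 C) := mul_le_mul_of_nonneg_left (add_le_add s1.2 s2.2) h5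
    _ = _ := by ring

lemma Lay.integrable {C M : ℝ} {g : E2 → ℝ} (h : Lay C M g) : Integrable g := by
  refine ((k0p_integrable C).const_mul M).mono' h.meas.aestronglyMeasurable (ae_of_all _ fun w => ?_)
  exact h.layP.bdd w

/-- smooth kernels, zero near the origin and homogeneous of degree `-m` outside the unit ball -/
structure Far {F : Type} [NormedAddCommGroup F] [NormedSpace ℝ F] (m : ℕ) (k : E2 → F) : Prop where
  smooth : ContDiff ℝ ∞ k
  zero : ∀ x, ‖x‖ < 1 / 2 → k x = 0
  hom : ∀ (x : E2) (t : ℝ), 1 < ‖x‖ → 1 ≤ t → t ^ m • k (t • x) = k x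

variable {F : Type} [NormedAddCommGroup F] [NormedSpace ℝ F]

lemma Far.fderiv {m : ℕ} {k : E2 → F} (hk : Far m k) : Far (m + 1) (fderiv ℝ k) where
  smooth := hk.smooth.fderiv_right (m := ∞) (by norm_cast)
  zero := fun x hx => by
    have h : k =ᶠ[𝓝 x] fun _ => (0 : F) := by
      have : {y : E2 | ‖y‖ < 1 / 2} ∈ 𝓝 x :=
        (isOpen_lt continuous_norm continuous_const).mem_nhds hx
      filter_upwards [this] with y hy
      exact hk.zero y hy
    rw [h.fderiv_eq]
    simp
  hom := fun x t hx ht => by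
    have h : k =ᶠ[𝓝 x] fun y => t ^ m • k (t • y) := by
      have : {y : E2 | 1 < ‖y‖} ∈ 𝓝 x :=
        (isOpen_lt continuous_const continuous_norm).mem_nhds hx
      filter_upwards [this] with y hy
      exact (hk.hom y t hy ht).symm
    have hd : HasFDerivAt k (_root_.fderiv ℝ k (t • x)) (t • x) :=
      (hk.smooth.differentiable (by norm_num)).differentiableAt.hasFDerivAt
    have h1 : HasFDerivAt (fun y : E2 => t • y) (t • ContinuousLinearMap.id ℝ E2) x :=
      (hasFDerivAt_id x).const_smul t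
    have h2 : HasFDerivAt (fun y : E2 => t ^ m • k (t • y))
        (t ^ m • ((_root_.fderiv ℝ k (t • x)).comp (t • ContinuousLinearMap.id ℝ E2))) x :=
      (HasFDerivAt.comp x hd h1).const_smul (t ^ m)
    rw [h.fderiv_eq, h2.fderiv]
    ext v
    simp [pow_succ, mul_smul]

lemma Far.bound {m : ℕ} {k : E2 → F} (hk : Far m k) : ∃ B : ℝ, 0 ≤ B ∧ ∀ a, ‖k a‖ ≤ B := by
  obtain ⟨C, hC⟩ := (isCompact_closedBall (0 : E2) 2).exists_bound_of_continuousOn
    hk.smooth.continuous.continuousOn
  have hC0 : 0 ≤ C := (norm_nonneg _).trans (hC 0 (by simp))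
  refine ⟨C, hC0, fun a => ?_⟩
  by_cases h2 : ‖a‖ ≤ 2
  · exact hC a (by simpa using h2)
  · have h2' : 2 < ‖a‖ := not_le.1 h2
    set t := ‖a‖ / 2 with ht
    have ht1 : 1 ≤ t := by rw [ht]; linarith
    set y := t⁻¹ • a with hy
    have ht0 : 0 < t := by linarith
    have hyn : ‖y‖ = 2 := by
      rw [hy, norm_smul, norm_inv, Real.norm_of_nonneg ht0.le, ht]
      field_simp
    have hay : t • y = a := by rw [hy, smul_smul, mul_inv_cancel₀ ht0.ne', one_smul]
    have h4 := hk.hom y t (by rw [hyn]; norm_num) ht1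
    rw [hay] at h4
    have h5 : t ^ m * ‖k a‖ ≤ C := by
      have := congrArg norm h4
      rw [norm_smul, norm_pow, Real.norm_of_nonneg ht0.le] at this
      rw [this]
      exact hC y (by simp [hyn])
    have h6 : 1 ≤ t ^ m := one_le_pow₀ ht1
    nlinarith [norm_nonneg (k a)]

/-- potential with a far kernel -/
noncomputable def FP (g : E2 → ℝ) (k : E2 → F) (X : E2) : F := ∫ w, g w • k (X - w)

lemma FP_hasFDerivAt {g : E2 → ℝ} (hg : Integrable g) {m : ℕ}
    {k : E2 → F} (hk : Far m k) (X : E2) :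
    HasFDerivAt (FP g k) (FP g (fderiv ℝ k) X) X := by
  obtain ⟨B, hB0, hB⟩ := hk.bound
  obtain ⟨B', hB0', hB'⟩ := hk.fderiv.bound
  have hcont : Continuous k := hk.smooth.continuous
  have hcont' : Continuous (fderiv ℝ k) := hk.fderiv.smooth.continuous
  refine hasFDerivAt_integral_of_dominated_of_fderiv_le (F := fun X w => g w • k (X - w))
    (F' := fun X w => g w • fderiv ℝ k (X - w)) (bound := fun w => ‖g w‖ * B')
    (ball_mem_nhds X one_pos) ?_ ?_ ?_ (ae_of_all _ ?_) (hg.norm.mul_const B') (ae_of_all _ ?_)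
  · refine Eventually.of_forall fun Y => ?_
    exact hg.aestronglyMeasurable.smul (hcont.comp (by fun_prop)).aestronglyMeasurable
  · exact hg.smul_bdd B (hcont.comp (by fun_prop)).aestronglyMeasurable (ae_of_all _ fun w => hB _)
  · exact hg.aestronglyMeasurable.smul (hcont'.comp (by fun_prop)).aestronglyMeasurable
  · intro w Y _
    rw [norm_smul]
    exact mul_le_mul_of_nonneg_left (hB' _) (norm_nonneg _)
  · intro w Y _
    have hd : HasFDerivAt k (fderiv ℝ k (Y - w)) (Y - w) :=
      (hk.smooth.differentiable (by norm_num)).differentiableAt.hasFDerivAt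
    have h1 : HasFDerivAt (fun y : E2 => y - w) (ContinuousLinearMap.id ℝ E2) Y :=
      (hasFDerivAt_id Y).sub_const w
    have h2 := (HasFDerivAt.comp Y hd h1).const_smul (g w)
    rwa [ContinuousLinearMap.comp_id] at h2

lemma FP_contDiff {g : E2 → ℝ} (hg : Integrable g) (n : ℕ) :
    ∀ {F : Type} [NormedAddCommGroup F] [NormedSpace ℝ F] {m : ℕ}
    {k : E2 → F} (_ : Far m k), ContDiff ℝ n (FP g k) := by
  induction n with
  | zero =>
    intro F _ _ m k hk
    rw [CharP.cast_eq_zero, contDiff_zero]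
    exact continuous_iff_continuousAt.2 fun X => (FP_hasFDerivAt hg hk X).continuousAt
  | succ n ih =>
    intro F _ _ m k hk
    push_cast
    rw [contDiff_succ_iff_hasFDerivAt]
    exact ⟨FP g (fderiv ℝ k), ih hk.fderiv, fun X => FP_hasFDerivAt hg hk X⟩

lemma DGt_far : Far 1 (fderiv ℝ Gt) where
  smooth := Gt_smooth.fderiv_right (m := ∞) (by norm_cast)
  zero := fun x hx => by
    have h : Gt =ᶠ[𝓝 x] fun _ => (0 : ℝ) := by
      have : {y : E2 | ‖y‖ < 1 / 2} ∈ 𝓝 x :=
        (isOpen_lt continuous_norm continuous_const).mem_nhds hx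
      filter_upwards [this] with y hy
      exact Gt_zero y (le_of_lt hy)
    rw [h.fderiv_eq]
    simp
  hom := fun x t hx ht => by
    have h : Gt =ᶠ[𝓝 x] fun y => Gt (t • y) - Real.log t := by
      have : {y : E2 | 1 < ‖y‖} ∈ 𝓝 x :=
        (isOpen_lt continuous_const continuous_norm).mem_nhds hx
      filter_upwards [this] with y hy
      have hy' : 1 < ‖y‖ := hy
      have e : ‖t • y‖ = t * ‖y‖ := by rw [norm_smul, Real.norm_of_nonneg (by linarith)]
      rw [Gt_of_le y hy'.le, Gt_of_le (t • y) (by rw [e]; nlinarith), e,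
        Real.log_mul (by linarith) (by linarith)]
      ring
    have hd : HasFDerivAt Gt (fderiv ℝ Gt (t • x)) (t • x) :=
      (Gt_smooth.differentiable (by norm_num)).differentiableAt.hasFDerivAt
    have h1 : HasFDerivAt (fun y : E2 => t • y) (t • ContinuousLinearMap.id ℝ E2) x :=
      (hasFDerivAt_id x).const_smul t
    have h2 : HasFDerivAt (fun y : E2 => Gt (t • y) - Real.log t)
        ((fderiv ℝ Gt (t • x)).comp (t • ContinuousLinearMap.id ℝ E2)) x :=
      (HasFDerivAt.comp x hd h1).sub_const _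
    rw [h.fderiv_eq, h2.fderiv]
    ext v
    simp

/-- the far part of the potential -/
noncomputable def QP (g : E2 → ℝ) (X : E2) : ℝ := ∫ w, g w * (Gt (X - w) - Real.log ‖w‖)

lemma Lay.QP_int {C M : ℝ} {g : E2 → ℝ} (h : Lay C M g) (X : E2) :
    Integrable (fun w => g w * (Gt (X - w) - Real.log ‖w‖)) ∧
    Integrable (fun w => g w * G0 (X - w)) := by
  have h1 := (h.layP.int X).1
  have hb : ∀ w, |g w| ≤ M * 9 := fun w => by
    refine (h.layP.bdd w).trans ?_
    exact mul_le_mul_of_nonneg_left (k0_le C w) h.M0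
  have h2 : Integrable (fun w => g w * G0 (X - w)) := by
    have := (G0_integrable.comp_sub_left X).bdd_mul (c := M * 9) h.meas.aestronglyMeasurable
      (ae_of_all _ fun w => by simpa using hb w)
    exact this
  refine ⟨?_, h2⟩
  refine (h1.sub h2).congr (ae_of_all _ fun w => ?_)
  simp only [Pi.sub_apply]
  unfold KL
  rw [← Gt_add_G0 (X - w)]
  ring

lemma Lay.QP_hasFDerivAt {C M : ℝ} {g : E2 → ℝ} (h : Lay C M g) (X : E2) :
    HasFDerivAt (QP g) (FP g (_root_.fderiv ℝ Gt) X) X := by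
  obtain ⟨B', hB0', hB'⟩ := DGt_far.bound
  have hg := h.integrable
  have hcont : Continuous Gt := Gt_smooth.continuous
  have hcont' : Continuous (_root_.fderiv ℝ Gt) := DGt_far.smooth.continuous
  refine hasFDerivAt_integral_of_dominated_of_fderiv_le
    (F := fun X w => g w * (Gt (X - w) - Real.log ‖w‖))
    (F' := fun X w => g w • _root_.fderiv ℝ Gt (X - w)) (bound := fun w => ‖g w‖ * B')
    (ball_mem_nhds X one_pos) ?_ ?_ ?_ (ae_of_all _ ?_) (hg.norm.mul_const B') (ae_of_all _ ?_)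
  · refine Eventually.of_forall fun Y => ?_
    exact (h.QP_int Y).1.aestronglyMeasurable
  · exact (h.QP_int X).1
  · exact hg.aestronglyMeasurable.smul (hcont'.comp (by fun_prop)).aestronglyMeasurable
  · intro w Y _
    rw [norm_smul]
    exact mul_le_mul_of_nonneg_left (hB' _) (norm_nonneg _)
  · intro w Y _
    have hd : HasFDerivAt Gt (_root_.fderiv ℝ Gt (Y - w)) (Y - w) :=
      (Gt_smooth.differentiable (by norm_num)).differentiableAt.hasFDerivAt
    have h1 : HasFDerivAt (fun y : E2 => y - w) (ContinuousLinearMap.id ℝ E2) Y :=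
      (hasFDerivAt_id Y).sub_const w
    have h2 := ((HasFDerivAt.comp Y hd h1).sub_const (Real.log ‖w‖)).const_mul (g w)
    rwa [ContinuousLinearMap.comp_id] at h2

/-- **regularity of logarithmic potentials** -/
lemma Lay.PL_contDiff {C M : ℝ} {g : E2 → ℝ} (h : Lay C M g) {n : ℕ} (hn : ContDiff ℝ n g) :
    ContDiff ℝ (n + 1) (PL g) := by
  have h1 : ContDiff ℝ (n + 1) (QP g) := by
    rw [contDiff_succ_iff_hasFDerivAt]
    exact ⟨FP g (_root_.fderiv ℝ Gt), FP_contDiff h.integrable n DGt_far, fun X => h.QP_hasFDerivAt X⟩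
  have h2 := near_contDiff hn
  have e : PL g = fun X => QP g X + ∫ w, g w * G0 (X - w) := by
    ext X
    unfold PL QP
    rw [← integral_add (h.QP_int X).1 (h.QP_int X).2]
    congr 1
    ext w
    unfold KL
    rw [← Gt_add_G0 (X - w)]
    ring
  rw [e]
  exact h1.add h2

open Pool.Agent.H314.CS (log_translate locInt_log)
open Pool.Agent.H314.CS.LL (green continuous_laplacian hasCompactSupport_laplacian
  laplacian_eq_sum_fderiv)

lemma int_lap_zero {φ : E2 → ℝ} (hφ : ContDiff ℝ 2 φ) (hs : HasCompactSupport φ) :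
    ∫ X, (Δ φ) X = 0 := by
  have h := green (E := E2) (v := fun _ => (1 : ℝ)) contDiff_const hφ hs
  have h0 : ∀ x : E2, (Δ (fun _ : E2 => (1 : ℝ))) x = 0 := by
    intro x
    rw [laplacian_eq_sum_fderiv (E := E2) contDiff_const]
    simp
  simp only [h0, one_mul, zero_mul, integral_zero] at h
  exact h

lemma Lay.weak {C M : ℝ} {g : E2 → ℝ} (h : Lay C M g) {φ : E2 → ℝ} (hφ : ContDiff ℝ 2 φ)
    (hs : HasCompactSupport φ) : ∫ X, PL g X * (Δ φ) X = 2 * Real.pi * ∫ w, g w * φ w := by
  have hΔc : Continuous (Δ φ) := continuous_laplacian hφ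
  have hΔs : HasCompactSupport (Δ φ) := hasCompactSupport_laplacian hφ hs
  have hΔi : Integrable (Δ φ) := hΔc.integrable_of_hasCompactSupport hΔs
  have hm : Measurable fun p : E2 × E2 => g p.2 * KL p.1 p.2 * (Δ φ) p.1 := by
    have h1 := h.meas
    have h2 := hΔc.measurable
    unfold KL
    fun_prop
  have hi : Integrable (fun p : E2 × E2 => g p.2 * KL p.1 p.2 * (Δ φ) p.1)
      ((volume : Measure E2).prod volume) := by
    rw [integrable_prod_iff hm.aestronglyMeasurable]
    refine ⟨ae_of_all _ fun X => (h.layP.int X).1.mul_const ((Δ φ) X), ?_⟩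
    have hbi : Integrable fun X => (M * A3 C) * (‖(Δ φ) X‖ * pp X) := by
      refine Integrable.const_mul ?_ _
      exact (hΔc.norm.mul pp_cont).integrable_of_hasCompactSupport hΔs.norm.mul_right
    refine hbi.mono' hm.aestronglyMeasurable.norm.integral_prod_right' (ae_of_all _ fun X => ?_)
    have e : ∀ w, ‖g w * KL X w * (Δ φ) X‖ = ‖(Δ φ) X‖ * (|g w| * |KL X w|) := by
      intro w
      rw [norm_mul, norm_mul, Real.norm_eq_abs (g w), Real.norm_eq_abs (KL X w)]
      ring
    simp only [e]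
    have hh := (h.layP.int X).2.2.1
    have h0 : 0 ≤ ∫ w, |g w| * |KL X w| := integral_nonneg fun w => by positivity
    rw [integral_const_mul, norm_mul, norm_norm, Real.norm_of_nonneg h0]
    calc ‖(Δ φ) X‖ * ∫ w, |g w| * |KL X w| ≤ ‖(Δ φ) X‖ * (M * (A3 C * pp X)) :=
          mul_le_mul_of_nonneg_left hh (norm_nonneg _)
      _ = _ := by ring
  have e1 : ∀ X, PL g X * (Δ φ) X = ∫ w, g w * KL X w * (Δ φ) X := by
    intro X
    rw [integral_mul_const]; rfl
  simp_rw [e1]
  rw [integral_integral_swap hi, ← integral_const_mul]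
  congr 1
  ext w
  have e2 : ∫ X, g w * KL X w * (Δ φ) X = g w * ∫ X, KL X w * (Δ φ) X := by
    rw [← integral_const_mul]
    congr 1
    ext X
    ring
  have j1 : Integrable (fun X => Real.log ‖X - w‖ * (Δ φ) X) :=
    (locInt_log w).integrable_smul_right_of_hasCompactSupport hΔc hΔs
  have e3 : ∫ X, KL X w * (Δ φ) X = 2 * Real.pi * φ w := by
    have e4 : ∀ X, KL X w * (Δ φ) X = Real.log ‖X - w‖ * (Δ φ) X - Real.log ‖w‖ * (Δ φ) X := by
      intro X; unfold KL; ring
    simp_rw [e4]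
    rw [integral_sub j1 (hΔi.const_mul _), integral_const_mul, int_lap_zero hφ hs,
      log_translate w hφ hs]
    ring
  rw [e2, e3]
  ring

lemma Lay.lap_eq {C M : ℝ} {g : E2 → ℝ} (h : Lay C M g) (hgc : Continuous g) {v : E2 → ℝ}
    (hv : ContDiff ℝ 2 v) {κ : ℝ} (hvg : ∀ X, v X = κ * PL g X) (X : E2) :
    (Δ v) X = κ * (2 * Real.pi) * g X := by
  have hcont : Continuous fun X => (Δ v) X - κ * (2 * Real.pi) * g X :=
    (continuous_laplacian hv).sub (continuous_const.mul hgc)
  have h1 : ∀ᵐ x : E2, (Δ v) x - κ * (2 * Real.pi) * g x = 0 := by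
    apply ae_eq_zero_of_integral_contDiff_smul_eq_zero hcont.locallyIntegrable
    intro φ hφ hs
    have hφ2 : ContDiff ℝ 2 φ := by exact_mod_cast contDiff_infty.1 hφ 2
    have i1 : Integrable fun x => (Δ v) x * φ x :=
      ((continuous_laplacian hv).mul hφ.continuous).integrable_of_hasCompactSupport hs.mul_left
    have i2 : Integrable fun x => g x * φ x :=
      (hgc.mul hφ.continuous).integrable_of_hasCompactSupport hs.mul_left
    have e : ∀ x, φ x • ((Δ v) x - κ * (2 * Real.pi) * g x) =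
        (Δ v) x * φ x - (κ * (2 * Real.pi)) * (g x * φ x) := by
      intro x; rw [smul_eq_mul]; ring
    simp_rw [e]
    rw [integral_sub i1 (i2.const_mul _), integral_const_mul, ← green hv hφ2 hs]
    have e2 : ∀ x, v x * (Δ φ) x = κ * (PL g x * (Δ φ) x) := by
      intro x; rw [hvg x]; ring
    simp_rw [e2]
    rw [integral_const_mul, h.weak hφ2 hs]
    ring
  have h2 : (fun X => (Δ v) X - κ * (2 * Real.pi) * g X) = fun _ => (0 : ℝ) :=
    (hcont.ae_eq_iff_eq volume continuous_const).1 h1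
  have : (Δ v) X - κ * (2 * Real.pi) * g X = 0 := congrFun h2 X
  linarith

end Pool.Agent.H123R3.P2
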