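import Pool.Agent.H123R3.P2.N4

/-! # The fixed point in the plane -/

set_option autoImplicit false

open MeasureTheory Set Filter Topology Metric
open scoped ENNReal NNReal ContDiff Laplacian

namespace Pool.Agent.H123R3.P2

/-- the smooth version of `|w|⁻²` -/
noncomputable def th (w : E2) : ℝ := (1 - chi w) * (‖w‖⁻¹) ^ 2

lemma th_smooth : ContDiff ℝ ∞ th :=
  smooth_of_zero (contDiff_const.sub chi.contDiff) (by norm_num : (0 : ℝ) < 1 / 2)
    (fun x hx => by rw [chi_one x hx, sub_self])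
    (fun x hx => ((contDiffAt_norm ℝ hx).inv (norm_ne_zero_iff.2 hx)).pow 2)

lemma th_nonneg (w : E2) : 0 ≤ th w := by
  unfold th
  have := chi.le_one (x := w)
  exact mul_nonneg (by linarith) (by positivity)

lemma th_le (w : E2) : th w ≤ 9 * (1 + ‖w‖) ^ (-2 : ℝ) := by
  have e : (1 + ‖w‖) ^ (-2 : ℝ) = ((1 + ‖w‖)⁻¹) ^ 2 := by
    rw [Real.rpow_neg (by positivity), inv_pow]
    norm_cast
  rw [e]
  by_cases h : ‖w‖ ≤ 1 / 2
  · unfold th
    rw [chi_one w h]
    have : 0 ≤ 9 * ((1 + ‖w‖)⁻¹) ^ 2 := by positivity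
    linarith
  · have h' : 1 / 2 < ‖w‖ := not_le.1 h
    have h1 : ‖w‖⁻¹ ≤ 3 * (1 + ‖w‖)⁻¹ := by
      rw [← div_eq_mul_inv, inv_eq_one_div, div_le_div_iff₀ (by linarith) (by positivity)]
      linarith
    have h2 : 0 < ‖w‖⁻¹ := by positivity
    have h3 : (‖w‖⁻¹) ^ 2 ≤ 9 * ((1 + ‖w‖)⁻¹) ^ 2 := by nlinarith
    unfold th
    have h4 := chi.nonneg (x := w)
    have h5 : 0 ≤ (‖w‖⁻¹) ^ 2 := by positivity
    nlinarith

lemma th_eq (w : E2) (h : 1 ≤ ‖w‖) : ‖w‖ ^ 2 * th w = 1 := by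
  unfold th
  rw [chi_zero w h]
  have : 0 < ‖w‖ := by linarith
  field_simp
  ring

/-- the clamp -/
noncomputable def cl (q t : ℝ) : ℝ := max (-q) (min q t)

lemma cl_le (q t : ℝ) (hq : 0 ≤ q) : |cl q t| ≤ q := by
  unfold cl
  rw [abs_le]
  exact ⟨le_max_left _ _, max_le (by linarith) (min_le_left _ _)⟩

lemma cl_lip (q s t : ℝ) : |cl q s - cl q t| ≤ |s - t| := by
  unfold cl
  have h1 := abs_max_sub_max_le_max (-q) (min q s) (-q) (min q t)
  have h2 := abs_min_sub_min_le_max q s q t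
  have h3 : max |(-q) - -q| |min q s - min q t| = |min q s - min q t| := by
    rw [sub_self, abs_zero]
    exact max_eq_right (abs_nonneg _)
  have h4 : max |q - q| |s - t| = |s - t| := by
    rw [sub_self, abs_zero]
    exact max_eq_right (abs_nonneg _)
  rw [h3] at h1
  rw [h4] at h2
  exact h1.trans h2

lemma cl_eq (q t : ℝ) (h : |t| ≤ q) : cl q t = t := by
  rw [abs_le] at h
  unfold cl
  rw [min_eq_right h.2, max_eq_right h.1]

lemma region {ρ B : ℝ} (hρ0 : 0 ≤ ρ) (hB : 0 ≤ B) (w : E2) (c : ℝ) (hc : |c| ≤ pp w)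
    (h : |w 0 - B + c| ≤ ρ) : w ∈ Om (2 * (B + ρ + 2)) := by
  set P : ℝ := (1 + |w 1|) ^ (1 / 4 : ℝ) with hP
  have hP1 : 1 ≤ P := Real.one_le_rpow (by linarith [abs_nonneg (w 1)]) (by norm_num)
  have hn : ‖w‖ ≤ |w 0| + |w 1| := by
    rw [EuclideanSpace.norm_eq, Fin.sum_univ_two]
    apply Real.sqrt_le_iff.2
    constructor
    · positivity
    · simp only [Real.norm_eq_abs]
      nlinarith [abs_nonneg (w 0), abs_nonneg (w 1)]
  have h0 : |w 0| ≤ B + ρ + pp w := by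
    rw [abs_le] at *
    constructor <;> linarith [h.1, h.2, hc.1, hc.2]
  change |w 0| ≤ 2 * (B + ρ + 2) * P
  rcases le_or_gt (|w 0|) (1 + |w 1|) with hcase | hcase
  · have h2 : pp w ≤ 2 * P := by
      have h3 : pp w ≤ (2 * (1 + |w 1|)) ^ (1 / 4 : ℝ) :=
        Real.rpow_le_rpow (by positivity) (by linarith) (by norm_num)
      rw [Real.mul_rpow (by norm_num) (by positivity)] at h3
      have h4 : (2 : ℝ) ^ (1 / 4 : ℝ) ≤ 2 ^ (1 : ℝ) :=
        Real.rpow_le_rpow_of_exponent_le (by norm_num) (by norm_num)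
      rw [Real.rpow_one] at h4
      exact h3.trans (mul_le_mul_of_nonneg_right h4 (by positivity))
    nlinarith
  · have h2 : pp w ≤ 1 + |w 0| / 2 := by
      have h3 : pp w ≤ 1 + 1 / 4 * ‖w‖ :=
        rpow_one_add_le_one_add_mul_self (by linarith [norm_nonneg w]) (by norm_num) (by norm_num)
      linarith
    nlinarith

/-- the right-hand side -/
noncomputable def GG (f : ℝ → ℝ) (B : ℝ) (φ : E2 → ℝ) (w : E2) : ℝ :=
  th w * f (w 0 - B + cl (pp w) (pp w * φ w))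

variable {f : ℝ → ℝ} {ρ M Λ B : ℝ}

lemma GG_cont (hf : Continuous f) {φ : E2 → ℝ} (hφ : Continuous φ) : Continuous (GG f B φ) := by
  have h1 : Continuous fun w => cl (pp w) (pp w * φ w) := by
    unfold cl
    have := pp_cont
    fun_prop
  have h2 := th_smooth.continuous
  unfold GG
  exact h2.mul (hf.comp (((by fun_prop : Continuous fun w : E2 => w 0).sub continuous_const).add h1))

lemma GG_lay (hf : Continuous f) (hρ0 : 0 ≤ ρ) (hB : 0 ≤ B) (hρ : ∀ t, ρ < |t| → f t = 0)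
    (hM : ∀ t, |f t| ≤ M) {φ : E2 → ℝ} (hφ : Continuous φ) :
    Lay (2 * (B + ρ + 2)) M (GG f B φ) where
  meas := (GG_cont hf hφ).measurable
  M0 := (abs_nonneg _).trans (hM 0)
  bdd := fun w => by
    have hM0 : 0 ≤ M := (abs_nonneg _).trans (hM 0)
    unfold GG
    by_cases h : |w 0 - B + cl (pp w) (pp w * φ w)| ≤ ρ
    · have hw := region hρ0 hB w _ (cl_le _ _ (by linarith [pp_one w])) h
      unfold k0
      rw [indicator_of_mem hw, abs_mul, abs_of_nonneg (th_nonneg w), mul_comm]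
      exact mul_le_mul (hM _) (th_le w) (th_nonneg w) hM0
    · rw [hρ _ (not_le.1 h), mul_zero, abs_zero]
      exact mul_nonneg hM0 (k0_nonneg _ _)

lemma GG_sub (hf : Continuous f) (hρ0 : 0 ≤ ρ) (hB : 0 ≤ B) (hρ : ∀ t, ρ < |t| → f t = 0)
    (hΛ0 : 0 ≤ Λ) (hΛ : ∀ s t, |f s - f t| ≤ Λ * |s - t|) {φ φ' : E2 → ℝ} (hφ : Continuous φ)
    (hφ' : Continuous φ') {d : ℝ} (hd : ∀ w, |φ w - φ' w| ≤ d) :
    LayP (2 * (B + ρ + 2)) (Λ * d) (fun w => GG f B φ w - GG f B φ' w) where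
  meas := ((GG_cont hf hφ).sub (GG_cont hf hφ')).measurable
  M0 := mul_nonneg hΛ0 ((abs_nonneg _).trans (hd 0))
  bdd := fun w => by
    have hp1 := pp_one w
    have hd0 : 0 ≤ d := (abs_nonneg _).trans (hd w)
    have key : |f (w 0 - B + cl (pp w) (pp w * φ w)) - f (w 0 - B + cl (pp w) (pp w * φ' w))| ≤
        Λ * (pp w * d) := by
      refine (hΛ _ _).trans (mul_le_mul_of_nonneg_left ?_ hΛ0)
      rw [add_sub_add_left_eq_sub]
      refine (cl_lip _ _ _).trans ?_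
      rw [← mul_sub, abs_mul, abs_of_nonneg (by linarith : 0 ≤ pp w)]
      exact mul_le_mul_of_nonneg_left (hd w) (by linarith)
    unfold GG
    rw [← mul_sub, abs_mul, abs_of_nonneg (th_nonneg w)]
    by_cases hw : w ∈ Om (2 * (B + ρ + 2))
    · unfold k0
      rw [indicator_of_mem hw]
      calc th w * _ ≤ (9 * (1 + ‖w‖) ^ (-2 : ℝ)) * (Λ * (pp w * d)) :=
            mul_le_mul (th_le w) key (abs_nonneg _) (by positivity)
        _ = _ := by ring
    · have h1 : ∀ φ : E2 → ℝ, f (w 0 - B + cl (pp w) (pp w * φ w)) = 0 := by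
        intro φ
        apply hρ
        by_contra hcon
        exact hw (region hρ0 hB w _ (cl_le _ _ (by linarith)) (not_lt.1 hcon))
      rw [h1, h1, sub_self, abs_zero, mul_zero]
      exact mul_nonneg (mul_nonneg hΛ0 hd0) (mul_nonneg (k0_nonneg _ _) (by linarith))

open BoundedContinuousFunction in
lemma exists_fix (hf : Continuous f) (hρ0 : 0 ≤ ρ) (hB : 0 ≤ B) (hρ : ∀ t, ρ < |t| → f t = 0)
    (hM : ∀ t, |f t| ≤ M) (hΛ0 : 0 ≤ Λ) (hΛ : ∀ s t, |f s - f t| ≤ Λ * |s - t|)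
    {κ : ℝ} (hκ : 0 < κ) (h1 : κ * (M * A3 (2 * (B + ρ + 2))) ≤ 1 / 2)
    (h2 : κ * (Λ * A3 (2 * (B + ρ + 2))) ≤ 1 / 2)
    (h3 : κ * (M * (2 * A1 (2 * (B + ρ + 2)))) ≤ 1 / 2) :
    ∃ V : E2 → ℝ, Continuous V ∧ V 0 = 0 ∧ (∀ X Y, |V X - V Y| ≤ 1 / 2 * ‖X - Y‖) ∧
      (∀ X, V X = κ * PL (fun w => th w * f (w 0 - B + V w)) X) ∧
      Lay (2 * (B + ρ + 2)) M (fun w => th w * f (w 0 - B + V w)) := by
  set C := 2 * (B + ρ + 2) with hC
  have hlay : ∀ φ : E2 →ᵇ ℝ, Lay C M (GG f B φ) := fun φ => GG_lay hf hρ0 hB hρ hM φ.continuous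
  have hbd : ∀ φ : E2 →ᵇ ℝ, ∀ X, |κ * PL (GG f B φ) X| ≤ 1 / 2 * pp X := by
    intro φ X
    rw [abs_mul, abs_of_pos hκ]
    have hp := pp_one X
    calc κ * |PL (GG f B φ) X| ≤ κ * (M * (A3 C * pp X)) :=
          mul_le_mul_of_nonneg_left ((hlay φ).layP.int X).2.2.2 hκ.le
      _ = (κ * (M * A3 C)) * pp X := by ring
      _ ≤ 1 / 2 * pp X := mul_le_mul_of_nonneg_right h1 (by linarith)
  have hlip : ∀ φ : E2 →ᵇ ℝ, ∀ X Y, |κ * PL (GG f B φ) X - κ * PL (GG f B φ) Y| ≤ 1 / 2 * ‖X - Y‖ := by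
    intro φ X Y
    rw [← mul_sub, abs_mul, abs_of_pos hκ]
    calc κ * |PL (GG f B φ) X - PL (GG f B φ) Y| ≤ κ * (M * (2 * A1 C) * ‖X - Y‖) :=
          mul_le_mul_of_nonneg_left ((hlay φ).lip X Y) hκ.le
      _ = κ * (M * (2 * A1 C)) * ‖X - Y‖ := by ring
      _ ≤ _ := mul_le_mul_of_nonneg_right h3 (norm_nonneg _)
  have hcont0 : ∀ φ : E2 →ᵇ ℝ, Continuous fun X => κ * PL (GG f B φ) X := by
    intro φ
    have : LipschitzWith (1 / 2) fun X => κ * PL (GG f B φ) X := by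
      apply LipschitzWith.of_dist_le_mul
      intro X Y
      rw [Real.dist_eq, dist_eq_norm]
      simpa using hlip φ X Y
    exact this.continuous
  have hpne : ∀ X : E2, pp X ≠ 0 := fun X => by linarith [pp_one X]
  have hcont : ∀ φ : E2 →ᵇ ℝ, Continuous fun X => (pp X)⁻¹ * (κ * PL (GG f B φ) X) := fun φ =>
    (pp_cont.inv₀ hpne).mul (hcont0 φ)
  have hbd' : ∀ φ : E2 →ᵇ ℝ, ∀ X, |(pp X)⁻¹ * (κ * PL (GG f B φ) X)| ≤ 1 / 2 := by
    intro φ X
    have hp : 0 < pp X := by linarith [pp_one X]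
    rw [abs_mul, abs_of_pos (inv_pos.2 hp), inv_mul_le_iff₀ hp]
    have := hbd φ X
    linarith
  set T : (E2 →ᵇ ℝ) → (E2 →ᵇ ℝ) := fun φ =>
    BoundedContinuousFunction.ofNormedAddCommGroup (fun X => (pp X)⁻¹ * (κ * PL (GG f B φ) X))
      (hcont φ) (1 / 2) (fun X => by rw [Real.norm_eq_abs]; exact hbd' φ X) with hT
  have hTc : ContractingWith (1 / 2 : ℝ≥0) T := by
    refine ⟨by norm_num, ?_⟩
    apply LipschitzWith.of_dist_le_mul
    intro φ φ'
    rw [BoundedContinuousFunction.dist_le (by positivity)]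
    intro X
    rw [Real.dist_eq]
    simp only [hT, BoundedContinuousFunction.coe_ofNormedAddCommGroup]
    have hp : 0 < pp X := by linarith [pp_one X]
    rw [← mul_sub, ← mul_sub, abs_mul, abs_mul, abs_of_pos hκ, abs_of_pos (inv_pos.2 hp),
      inv_mul_le_iff₀ hp]
    have hd : ∀ w, |φ w - φ' w| ≤ dist φ φ' := by
      intro w
      rw [← Real.dist_eq]
      exact BoundedContinuousFunction.dist_coe_le_dist w
    have hl := GG_sub (B := B) hf hρ0 hB hρ hΛ0 hΛ φ.continuous φ'.continuous hd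
    have e : PL (GG f B φ) X - PL (GG f B φ') X = PL (fun w => GG f B φ w - GG f B φ' w) X := by
      unfold PL
      rw [← integral_sub ((hlay φ).layP.int X).1 ((hlay φ').layP.int X).1]
      congr 1
      ext w
      ring
    rw [e]
    calc κ * |PL (fun w => GG f B φ w - GG f B φ' w) X| ≤ κ * (Λ * dist φ φ' * (A3 C * pp X)) :=
          mul_le_mul_of_nonneg_left (hl.int X).2.2.2 hκ.le
      _ = κ * (Λ * A3 C) * (dist φ φ' * pp X) := by ring
      _ ≤ 1 / 2 * (dist φ φ' * pp X) :=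
          mul_le_mul_of_nonneg_right h2 (mul_nonneg dist_nonneg hp.le)
      _ = pp X * (((1 / 2 : ℝ≥0) : ℝ) * dist φ φ') := by push_cast; ring
  set φ := hTc.fixedPoint T with hφ
  have hfix : T φ = φ := hTc.fixedPoint_isFixedPt
  have hX : ∀ X, pp X * φ X = κ * PL (GG f B φ) X := by
    intro X
    have h4 : φ X = (pp X)⁻¹ * (κ * PL (GG f B φ) X) := by
      conv_lhs => rw [← hfix]
      rfl
    rw [h4, ← mul_assoc, mul_inv_cancel₀ (hpne X), one_mul]
  have hV1 : ∀ X, |pp X * φ X| ≤ pp X := fun X => by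
    rw [hX X]
    have := hbd φ X
    have := pp_one X
    linarith
  have hG : GG f B φ = fun w => th w * f (w 0 - B + pp w * φ w) := by
    ext w
    unfold GG
    rw [cl_eq _ _ (hV1 w)]
  refine ⟨fun X => pp X * φ X, pp_cont.mul φ.continuous, ?_, fun X Y => ?_, fun X => ?_, ?_⟩
  · simp only
    rw [hX 0]
    have : PL (GG f B φ) 0 = 0 := by
      unfold PL KL
      simp
    rw [this, mul_zero]
  · simp only
    rw [hX X, hX Y]; exact hlip φ X Y
  · rw [← hG]; exact hX X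
  · rw [← hG]; exact hlay φ

/-- **bootstrapping** -/
lemma smooth_of_fix (hf : ContDiff ℝ ∞ f) {V : E2 → ℝ} (hV : Continuous V) {κ C : ℝ}
    (hl : Lay C M (fun w => th w * f (w 0 - B + V w)))
    (h : ∀ X, V X = κ * PL (fun w => th w * f (w 0 - B + V w)) X) : ContDiff ℝ ∞ V := by
  have key : ∀ n : ℕ, ContDiff ℝ n V := by
    intro n
    induction n with
    | zero => simpa using hV
    | succ n ih =>
      have hc : ContDiff ℝ n fun w : E2 => w 0 := by fun_prop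
      have h1 : ContDiff ℝ n (fun w => th w * f (w 0 - B + V w)) :=
        (th_smooth.of_le (by exact_mod_cast le_top)).mul
          ((hf.of_le (by exact_mod_cast le_top)).comp ((hc.sub contDiff_const).add ih))
      have h2 := hl.PL_contDiff h1
      have e : V = fun X => κ * PL (fun w => th w * f (w 0 - B + V w)) X := funext h
      rw [e]
      push_cast
      exact contDiff_const.mul h2
  exact contDiff_infty.2 key

end Pool.Agent.H123R3.P2
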