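import Pool.Agent.H123R3.P2.N5
import Pool.Agent.H123R3.Top

/-! # Half-space rigidity fails: assembly -/

set_option autoImplicit false

open MeasureTheory Set Filter Topology Metric
open scoped ENNReal NNReal ContDiff Laplacian

namespace Pool.Agent.H123R3.P2

open Pool.Agent.H123R3 (E3 OneDim lap_scale)
open Pool.Agent.Helper486.TP (nl_lap_eq lap_add)

/-- `e^x cos y` -/
noncomputable def AA0 (X : E3) : ℝ := Real.exp (X 0) * Real.cos (X 1)

/-- `e^x sin y` -/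
noncomputable def SS0 (X : E3) : ℝ := Real.exp (X 0) * Real.sin (X 1)

/-- basis vectors of the plane -/
noncomputable abbrev b2 (i : Fin 2) : E2 := EuclideanSpace.basisFun (Fin 2) ℝ i

/-- the exponential map -/
noncomputable def ex (X : E3) : E2 := AA0 X • b2 0 + SS0 X • b2 1

lemma ex0 (X : E3) : (ex X) 0 = AA0 X := by simp [ex]

lemma ex1 (X : E3) : (ex X) 1 = SS0 X := by simp [ex]

lemma ex_norm_sq (X : E3) : ‖ex X‖ ^ 2 = AA0 X ^ 2 + SS0 X ^ 2 := by
  rw [EuclideanSpace.norm_sq_eq, Fin.sum_univ_two, ex0, ex1]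
  simp

lemma ex_norm (X : E3) : ‖ex X‖ = Real.exp (X 0) := by
  have h : ‖ex X‖ ^ 2 = (Real.exp (X 0)) ^ 2 := by
    rw [ex_norm_sq]
    unfold AA0 SS0
    rw [mul_pow, mul_pow, ← mul_add, add_comm, Real.sin_sq_add_cos_sq, mul_one]
  exact (pow_left_inj₀ (norm_nonneg _) (Real.exp_pos _).le (by norm_num)).1 h

/-- coordinate functionals -/
noncomputable abbrev P3 (i : Fin 3) : E3 →L[ℝ] ℝ := EuclideanSpace.proj i

lemma coordD (i : Fin 3) (X : E3) : HasFDerivAt (fun w : E3 => w i) (P3 i) X :=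
  (EuclideanSpace.proj i : E3 →L[ℝ] ℝ).hasFDerivAt

lemma AA0_D (X : E3) : HasFDerivAt AA0 (AA0 X • P3 0 - SS0 X • P3 1) X := by
  have h := ((coordD 0 X).exp).mul ((coordD 1 X).cos)
  refine h.congr_fderiv ?_
  ext v
  simp [AA0, SS0]
  ring

lemma SS0_D (X : E3) : HasFDerivAt SS0 (SS0 X • P3 0 + AA0 X • P3 1) X := by
  have h := ((coordD 0 X).exp).mul ((coordD 1 X).sin)
  refine h.congr_fderiv ?_
  ext v
  simp [AA0, SS0]
  ring

lemma ex_smooth : ContDiff ℝ ∞ ex := by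
  have hc : ∀ i : Fin 3, ContDiff ℝ ∞ fun w : E3 => w i := fun i => by fun_prop
  unfold ex AA0 SS0
  exact (((hc 0).exp.mul (hc 1).cos).smul contDiff_const).add
    (((hc 0).exp.mul (hc 1).sin).smul contDiff_const)

/-- partial derivatives in the plane -/
noncomputable def pd (ψ : E2 → ℝ) (i : Fin 2) (w : E2) : ℝ := fderiv ℝ ψ w (b2 i)

lemma pd_smooth {ψ : E2 → ℝ} (h : ContDiff ℝ ∞ ψ) (i : Fin 2) : ContDiff ℝ ∞ (pd ψ i) :=
  (h.fderiv_right (m := ∞) (by norm_cast)).clm_apply contDiff_const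

/-- the derivative of a composition with `ex` -/
noncomputable def Dex (ψ : E2 → ℝ) (X : E3) : E3 →L[ℝ] ℝ :=
  pd ψ 0 (ex X) • (AA0 X • P3 0 - SS0 X • P3 1) + pd ψ 1 (ex X) • (SS0 X • P3 0 + AA0 X • P3 1)

lemma comp_D {ψ : E2 → ℝ} (h : ContDiff ℝ ∞ ψ) (X : E3) :
    HasFDerivAt (fun X => ψ (ex X)) (Dex ψ X) X := by
  have h1 : HasFDerivAt ex ((AA0 X • P3 0 - SS0 X • P3 1).smulRight (b2 0) +
      (SS0 X • P3 0 + AA0 X • P3 1).smulRight (b2 1)) X :=
    ((AA0_D X).smul_const (b2 0)).add ((SS0_D X).smul_const (b2 1))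
  have hd : HasFDerivAt ψ (fderiv ℝ ψ (ex X)) (ex X) :=
    (h.differentiable (by norm_num)).differentiableAt.hasFDerivAt
  refine (hd.comp X h1).congr_fderiv ?_
  ext v
  simp only [ContinuousLinearMap.comp_apply, ContinuousLinearMap.add_apply,
    ContinuousLinearMap.smulRight_apply, map_add, map_smul, Dex, pd,
    ContinuousLinearMap.smul_apply, smul_eq_mul]
  ring

lemma lap_comp {ψ : E2 → ℝ} (h : ContDiff ℝ ∞ ψ) (X : E3) :
    (Δ (fun X => ψ (ex X))) X = ‖ex X‖ ^ 2 * (Δ ψ) (ex X) := by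
  have hs : ContDiff ℝ ∞ fun X : E3 => ψ (ex X) := h.comp ex_smooth
  rw [nl_lap_eq hs, nl_lap_eq h, ex_norm_sq, Fin.sum_univ_three, Fin.sum_univ_two]
  have hf : ∀ z v, fderiv ℝ (fun X => ψ (ex X)) z v = Dex ψ z v := fun z v => by
    rw [(comp_D h z).fderiv]
  have e0 : (fun z => fderiv ℝ (fun X => ψ (ex X)) z (EuclideanSpace.basisFun (Fin 3) ℝ 0)) =
      fun z => AA0 z * pd ψ 0 (ex z) + SS0 z * pd ψ 1 (ex z) := by
    ext z
    rw [hf]
    simp [Dex]
    ring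
  have e1 : (fun z => fderiv ℝ (fun X => ψ (ex X)) z (EuclideanSpace.basisFun (Fin 3) ℝ 1)) =
      fun z => -(SS0 z * pd ψ 0 (ex z)) + AA0 z * pd ψ 1 (ex z) := by
    ext z
    rw [hf]
    simp [Dex]
    ring
  have e2 : (fun z => fderiv ℝ (fun X => ψ (ex X)) z (EuclideanSpace.basisFun (Fin 3) ℝ 2)) =
      fun _ => (0 : ℝ) := by
    ext z
    rw [hf]
    simp [Dex]
  rw [e0, e1, e2]
  have d0 := comp_D (pd_smooth h 0) X
  have d1 := comp_D (pd_smooth h 1) X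
  have h0 : HasFDerivAt (fun z => AA0 z * pd ψ 0 (ex z) + SS0 z * pd ψ 1 (ex z)) _ X :=
    ((AA0_D X).mul d0).add ((SS0_D X).mul d1)
  have h1 : HasFDerivAt (fun z => -(SS0 z * pd ψ 0 (ex z)) + AA0 z * pd ψ 1 (ex z)) _ X :=
    (((SS0_D X).mul d0).neg).add ((AA0_D X).mul d1)
  rw [h0.fderiv, h1.fderiv]
  have g : ∀ i j : Fin 2, fderiv ℝ (fun z => fderiv ℝ ψ z (EuclideanSpace.basisFun (Fin 2) ℝ i)) (ex X)
      (EuclideanSpace.basisFun (Fin 2) ℝ j) = pd (pd ψ i) j (ex X) := fun i j => rfl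
  rw [g, g]
  simp [Dex]
  ring

variable {f : ℝ → ℝ} {ρ M B : ℝ}

/-- the plane function -/
noncomputable def UU (B : ℝ) (V : E2 → ℝ) (w : E2) : ℝ := w 0 - B + V w

lemma lin_lap (B : ℝ) (w : E2) : (Δ (fun w : E2 => w 0 - B)) w = 0 := by
  have hs : ContDiff ℝ ∞ fun w : E2 => w 0 - B := by fun_prop
  rw [nl_lap_eq hs]
  have hf : ∀ z v : E2, fderiv ℝ (fun w : E2 => w 0 - B) z v = v 0 := by
    intro z v
    have : HasFDerivAt (fun w : E2 => w 0 - B) (EuclideanSpace.proj 0 : E2 →L[ℝ] ℝ) z :=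
      ((EuclideanSpace.proj 0 : E2 →L[ℝ] ℝ).hasFDerivAt).sub_const B
    rw [this.fderiv]
    rfl
  simp_rw [hf]
  simp

lemma half_bound {V : E2 → ℝ} (h0 : V 0 = 0) (hV : ∀ X Y, |V X - V Y| ≤ 1 / 2 * ‖X - Y‖) (w : E2) :
    |V w| ≤ 1 / 2 * ‖w‖ := by
  have := hV w 0
  rwa [h0, sub_zero, sub_zero] at this

lemma source_eq (hρ0 : 0 ≤ ρ) (hρ : ∀ t, ρ < |t| → f t = 0) {V : E2 → ℝ} (h0 : V 0 = 0)
    (hV : ∀ X Y, |V X - V Y| ≤ 1 / 2 * ‖X - Y‖) (w : E2) :
    ‖w‖ ^ 2 * (th w * f (UU (ρ + 3) V w)) = f (UU (ρ + 3) V w) := by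
  by_cases h : 1 ≤ ‖w‖
  · rw [← mul_assoc, th_eq w h, one_mul]
  · have h' : ‖w‖ < 1 := not_le.1 h
    have hz : f (UU (ρ + 3) V w) = 0 := by
      apply hρ
      have h1 := half_bound h0 hV w
      have h2 := coord_le w 0
      unfold UU
      rw [abs_le] at h1 h2
      rw [abs_of_neg (by linarith)]
      linarith
    rw [hz]; ring

/-- the solution before rescaling -/
noncomputable def u1 (B : ℝ) (V : E2 → ℝ) (X : E3) : ℝ := UU B V (ex X)

lemma UU_smooth {V : E2 → ℝ} (hV : ContDiff ℝ ∞ V) : ContDiff ℝ ∞ (UU B V) := by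
  have hs : ContDiff ℝ ∞ fun w : E2 => w 0 - B := by fun_prop
  exact hs.add hV

lemma u1_le {V : E2 → ℝ} (h0 : V 0 = 0) (hV : ∀ X Y, |V X - V Y| ≤ 1 / 2 * ‖X - Y‖) (X : E3) :
    u1 B V X ≤ -B + 3 / 2 * Real.exp (X 0) := by
  have h1 := half_bound h0 hV (ex X)
  rw [ex_norm, abs_le] at h1
  have h2 : AA0 X ≤ Real.exp (X 0) := by
    unfold AA0
    have := Real.cos_le_one (X 1)
    have := Real.exp_pos (X 0)
    nlinarith
  unfold u1 UU
  rw [ex0]
  linarith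

lemma u1_ge {V : E2 → ℝ} (h0 : V 0 = 0) (hV : ∀ X Y, |V X - V Y| ≤ 1 / 2 * ‖X - Y‖) (X : E3)
    (hX : Real.cos (X 1) = 1) : -B + 1 / 2 * Real.exp (X 0) ≤ u1 B V X := by
  have h1 := half_bound h0 hV (ex X)
  rw [ex_norm, abs_le] at h1
  unfold u1 UU
  rw [ex0]
  unfold AA0
  rw [hX]
  linarith

lemma u1_lt {V : E2 → ℝ} (h0 : V 0 = 0) (hV : ∀ X Y, |V X - V Y| ≤ 1 / 2 * ‖X - Y‖) (X : E3)
    (hX : Real.cos (X 1) = -1) : u1 B V X < -B := by
  have h1 := half_bound h0 hV (ex X)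
  rw [ex_norm, abs_le] at h1
  unfold u1 UU
  rw [ex0]
  unfold AA0
  rw [hX]
  have := Real.exp_pos (X 0)
  linarith

lemma u1_crit {V : E2 → ℝ} (hVs : ContDiff ℝ ∞ V) (hV : ∀ X Y, |V X - V Y| ≤ 1 / 2 * ‖X - Y‖)
    (X : E3) : fderiv ℝ (u1 B V) X ≠ 0 := by
  have hd := comp_D (UU_smooth (B := B) hVs) X
  have e : fderiv ℝ (u1 B V) X = Dex (UU B V) X := hd.fderiv
  have hlip : LipschitzWith (1 / 2) V := by
    apply LipschitzWith.of_dist_le_mul
    intro X Y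
    rw [Real.dist_eq, dist_eq_norm]
    simpa using hV X Y
  have hn : ‖fderiv ℝ V (ex X)‖ ≤ 1 / 2 := by
    simpa using norm_fderiv_le_of_lipschitz ℝ hlip (x₀ := ex X)
  have hpd : pd (UU B V) 0 (ex X) = 1 + fderiv ℝ V (ex X) (b2 0) := by
    unfold pd
    have h1 : HasFDerivAt (fun w : E2 => w 0 - B) (EuclideanSpace.proj 0 : E2 →L[ℝ] ℝ) (ex X) :=
      ((EuclideanSpace.proj 0 : E2 →L[ℝ] ℝ).hasFDerivAt).sub_const B
    have h2 : HasFDerivAt V (fderiv ℝ V (ex X)) (ex X) :=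
      (hVs.differentiable (by norm_num)).differentiableAt.hasFDerivAt
    have h3 : HasFDerivAt (UU B V) _ (ex X) := h1.add h2
    rw [h3.fderiv]
    simp
  have hb : |fderiv ℝ V (ex X) (b2 0)| ≤ 1 / 2 := by
    have h1 := (fderiv ℝ V (ex X)).le_opNorm (b2 0)
    have h2 : ‖b2 0‖ = 1 := by simp
    rw [h2, mul_one] at h1
    exact h1.trans hn
  intro hcon
  rw [e] at hcon
  have h : Dex (UU B V) X (Real.cos (X 1) • EuclideanSpace.single 0 1 -
    Real.sin (X 1) • EuclideanSpace.single 1 1) = 0 := by rw [hcon]; rfl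
  have h5 : Dex (UU B V) X (Real.cos (X 1) • EuclideanSpace.single 0 1 -
    Real.sin (X 1) • EuclideanSpace.single 1 1) =
      pd (UU B V) 0 (ex X) * Real.exp (X 0) := by
    simp [Dex, AA0, SS0]
    linear_combination (pd (UU B V) 0 (ex X) * Real.exp (X 0)) * Real.cos_sq_add_sin_sq (X 1)
  rw [h5, hpd] at h
  have h6 := Real.exp_pos (X 0)
  rw [abs_le] at hb
  have h7 : 0 < (1 + fderiv ℝ V (ex X) (b2 0)) * Real.exp (X 0) := mul_pos (by linarith [hb.1]) h6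
  linarith

lemma not_oneDim2 {V : E2 → ℝ} (h0 : V 0 = 0) (hV : ∀ X Y, |V X - V Y| ≤ 1 / 2 * ‖X - Y‖)
    {l : ℝ} (hl : l ≠ 0) : ¬ OneDim (fun X => u1 B V (l • X)) := by
  rintro ⟨g, W, h⟩
  set L := g.linearIsometryEquiv with hL
  have hg : ∀ X, (g X) 0 = (L X) 0 + (g 0) 0 := by
    intro X
    have := g.map_vadd 0 X
    simp only [vadd_eq_add, add_zero] at this
    rw [this]
    rfl
  have key : ∀ d : E3, (L d) 0 = 0 → u1 B V d = u1 B V 0 := by
    intro d hd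
    have h1 := h ((1 / l) • d)
    have h2 := h 0
    have h3 : (g ((1 / l) • d)) 0 = (g 0) 0 := by
      rw [hg, map_smul]
      simp [hd]
    rw [h3] at h1
    rw [← h2] at h1
    simp only [smul_zero] at h1
    rw [smul_smul, mul_one_div_cancel hl, one_smul] at h1
    exact h1
  have hz : -B + 1 / 2 ≤ u1 B V 0 := by
    have := u1_ge (B := B) h0 hV (0 : E3) (by simp)
    simpa using this
  set x0 := (L (EuclideanSpace.single 0 1)) 0 with hx0
  set x1 := (L (EuclideanSpace.single 1 1)) 0 with hx1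
  by_cases hx : x1 = 0
  · have k := key (Real.pi • EuclideanSpace.single 1 1) (by
      rw [map_smul]
      simp only [PiLp.smul_apply, smul_eq_mul]
      rw [← hx1, hx, mul_zero])
    have k2 := u1_lt (B := B) h0 hV (Real.pi • EuclideanSpace.single 1 1 : E3) (by simp)
    rw [k] at k2
    linarith
  · have k := key ((-Real.log 4) • (EuclideanSpace.single 0 1 - (x0 / x1) • EuclideanSpace.single 1 1))
      (by
        rw [map_smul, map_sub, map_smul]
        simp only [PiLp.smul_apply, PiLp.sub_apply, smul_eq_mul]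
        rw [← hx0, ← hx1, div_mul_cancel₀ _ hx]
        ring)
    have k2 := u1_le (B := B) h0 hV
      ((-Real.log 4) • (EuclideanSpace.single 0 1 - (x0 / x1) • EuclideanSpace.single 1 1) : E3)
    rw [k] at k2
    have k3 : ((-Real.log 4) • (EuclideanSpace.single 0 1 -
        (x0 / x1) • EuclideanSpace.single 1 1) : E3) 0 = -Real.log 4 := by
      simp
    rw [k3, Real.exp_neg, Real.exp_log (by norm_num)] at k2
    linarith

theorem main2 (f : ℝ → ℝ) (hf : ContDiff ℝ ∞ f) (hs : HasCompactSupport f) :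
    ∃ u : E3 → ℝ, ContDiff ℝ ∞ u ∧ (∀ X, (Δ u) X = f (u X)) ∧ (∀ X, fderiv ℝ u X ≠ 0) ∧
      (∀ X, 0 < u X → 0 < X 0) ∧ (∃ X, 0 < u X) ∧ ¬ OneDim u := by
  obtain ⟨M, hM⟩ := hs.exists_bound_of_continuous hf.continuous
  have hM0 : 0 ≤ M := (norm_nonneg _).trans (hM 0)
  obtain ⟨ρ', hρ'⟩ := hs.isCompact.isBounded.subset_closedBall (0 : ℝ)
  set ρ := max ρ' 0 with hρdef
  have hρ0 : 0 ≤ ρ := le_max_right _ _
  have hρ : ∀ t, ρ < |t| → f t = 0 := by
    intro t ht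
    by_contra hne
    have := hρ' (subset_tsupport f hne)
    rw [mem_closedBall, dist_zero_right, Real.norm_eq_abs] at this
    have := le_max_left ρ' 0
    linarith
  have hf1 : ContDiff ℝ 1 f := hf.of_le (by exact_mod_cast le_top)
  obtain ⟨Λ, hΛ⟩ := hf1.lipschitzWith_of_hasCompactSupport hs one_ne_zero
  have hΛ' : ∀ s t, |f s - f t| ≤ (Λ : ℝ) * |s - t| := by
    intro s t
    have := hΛ.dist_le_mul s t
    rwa [Real.dist_eq, Real.dist_eq] at this
  have hΛ0 : (0 : ℝ) ≤ Λ := Λ.coe_nonneg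
  set B := ρ + 3 with hB
  have hB0 : 0 ≤ B := by rw [hB]; linarith
  set a1 := A1 (2 * (B + ρ + 2)) with ha1
  set a3 := A3 (2 * (B + ρ + 2)) with ha3
  have h10 : 0 ≤ a1 := A1_nonneg _
  have h30 : 0 ≤ a3 := A3_nonneg _
  set D := 2 * ((M + Λ) * (a3 + 2 * a1) + 1) with hD
  have hD0 : 0 < D := by positivity
  set κ := D⁻¹ with hκ
  have hκ0 : 0 < κ := by positivity
  have hle : ∀ b : ℝ, b ≤ (M + Λ) * (a3 + 2 * a1) → κ * b ≤ 1 / 2 := by
    intro b hb
    rw [hκ, inv_mul_le_iff₀ hD0, hD]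
    linarith
  have k1 : M * a3 ≤ (M + Λ) * (a3 + 2 * a1) := by
    nlinarith [mul_nonneg hM0 h10, mul_nonneg hΛ0 h30, mul_nonneg hΛ0 h10]
  have k2 : Λ * a3 ≤ (M + Λ) * (a3 + 2 * a1) := by
    nlinarith [mul_nonneg hM0 h10, mul_nonneg hM0 h30, mul_nonneg hΛ0 h10]
  have k3 : M * (2 * a1) ≤ (M + Λ) * (a3 + 2 * a1) := by
    nlinarith [mul_nonneg hM0 h30, mul_nonneg hΛ0 h30, mul_nonneg hΛ0 h10]
  obtain ⟨V, hVc, hV0, hVl, hVf, hVL⟩ := exists_fix hf.continuous hρ0 hB0 hρ hM hΛ0 hΛ' hκ0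
    (hle _ k1) (hle _ k2) (hle _ k3)
  have hVs := smooth_of_fix hf hVc hVL hVf
  have hgc : Continuous fun w : E2 => th w * f (w 0 - B + V w) :=
    th_smooth.continuous.mul (hf.continuous.comp
      (((by fun_prop : Continuous fun w : E2 => w 0).sub continuous_const).add hVc))
  have hV2 : ContDiff ℝ 2 V := by exact_mod_cast contDiff_infty.1 hVs 2
  have hlapV := hVL.lap_eq hgc hV2 hVf
  have hUs : ContDiff ℝ ∞ (UU B V) := UU_smooth hVs
  have hlapU : ∀ w, (Δ (UU B V)) w = κ * (2 * Real.pi) * (th w * f (UU B V w)) := by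
    intro w
    have hls : ContDiff ℝ ∞ fun w : E2 => w 0 - B := by fun_prop
    have := lap_add hls hVs w
    rw [lin_lap, zero_add, hlapV] at this
    exact this
  have hu1s : ContDiff ℝ ∞ (u1 B V) := hUs.comp ex_smooth
  have hlapu : ∀ X, (Δ (u1 B V)) X = κ * (2 * Real.pi) * f (u1 B V X) := by
    intro X
    have h1 := lap_comp hUs X
    rw [hlapU] at h1
    have h2 := source_eq hρ0 hρ hV0 hVl (ex X)
    have h3 : (Δ (u1 B V)) X = ‖ex X‖ ^ 2 * (κ * (2 * Real.pi) * (th (ex X) * f (UU B V (ex X)))) := h1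
    rw [h3]
    have h4 : ‖ex X‖ ^ 2 * (κ * (2 * Real.pi) * (th (ex X) * f (UU B V (ex X)))) =
        κ * (2 * Real.pi) * (‖ex X‖ ^ 2 * (th (ex X) * f (UU B V (ex X)))) := by ring
    rw [h4, h2]
    rfl
  set c := κ * (2 * Real.pi) with hc
  have hc0 : 0 < c := by positivity
  set l := (√c)⁻¹ with hl
  have hsq : 0 < √c := Real.sqrt_pos.2 hc0
  have hl0 : 0 < l := by positivity
  have hl2 : l ^ 2 * c = 1 := by
    rw [hl, inv_pow, Real.sq_sqrt hc0.le, inv_mul_cancel₀ hc0.ne']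
  refine ⟨fun X => u1 B V (l • X), hu1s.comp (contDiff_const_smul l), fun X => ?_, fun X => ?_,
    fun X hX => ?_, ?_, not_oneDim2 hV0 hVl hl0.ne'⟩
  · have := lap_scale hu1s l X
    rw [hlapu] at this
    rw [this, ← mul_assoc, hl2, one_mul]
  · have hd : HasFDerivAt (u1 B V) (fderiv ℝ (u1 B V) (l • X)) (l • X) :=
      (hu1s.differentiable (by norm_num)).differentiableAt.hasFDerivAt
    have h1 : HasFDerivAt (fun y : E3 => l • y) (l • ContinuousLinearMap.id ℝ E3) X :=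
      (hasFDerivAt_id X).const_smul l
    have h2 : HasFDerivAt (fun z => u1 B V (l • z)) ((fderiv ℝ (u1 B V) (l • X)).comp
        (l • ContinuousLinearMap.id ℝ E3)) X := HasFDerivAt.comp X hd h1
    rw [h2.fderiv]
    intro hcon
    apply u1_crit (B := B) hVs hVl (l • X)
    ext v
    have h3 := congrArg (fun T : E3 →L[ℝ] ℝ => T (l⁻¹ • v)) hcon
    simpa [smul_smul, hl0.ne'] using h3
  · by_contra hcon
    rw [not_lt] at hcon
    have h1 := u1_le (B := B) hV0 hVl (l • X)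
    have h2 : (l • X) 0 ≤ 0 := by
      simp only [PiLp.smul_apply, smul_eq_mul]
      exact mul_nonpos_of_nonneg_of_nonpos hl0.le hcon
    have h3 : Real.exp ((l • X) 0) ≤ 1 := Real.exp_le_one_iff.2 h2
    have h4 : B = ρ + 3 := hB
    linarith
  · refine ⟨(l⁻¹ * Real.log (2 * B + 2)) • EuclideanSpace.single 0 1, ?_⟩
    have e : l • ((l⁻¹ * Real.log (2 * B + 2)) • (EuclideanSpace.single 0 1 : E3)) =
        (Real.log (2 * B + 2)) • EuclideanSpace.single 0 1 := by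
      rw [smul_smul, ← mul_assoc, mul_inv_cancel₀ hl0.ne', one_mul]
    have h1 := u1_ge (B := B) hV0 hVl ((Real.log (2 * B + 2)) • (EuclideanSpace.single 0 1 : E3))
      (by simp)
    have h2 : ((Real.log (2 * B + 2)) • (EuclideanSpace.single 0 1 : E3)) 0 = Real.log (2 * B + 2) := by
      simp
    rw [h2, Real.exp_log (by linarith)] at h1
    simp only [e]
    linarith

end Pool.Agent.H123R3.P2
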